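import Pool.Agent.Helper77.K3.DefsII

set_option autoImplicit false

open Set Filter Topology Matrix
open Pool.Agent.Helper77.K3

namespace Pool.Agent.Helper81.K3.B2i

/-! ### General facts -/

theorem lin_one (i j : Fin 3) : lin 1 i j = if i = j then 1 else 0 := by
  unfold lin e
  have : (1 : Aff3).linear (Pi.single j 1) = (Pi.single j 1 : E) := rfl
  rw [this, Pi.single_apply]

theorem tr_one (i : Fin 3) : tr 1 i = 0 := rfl

/-- normalised element: `(x,y,z) ↦ (p x + κ y, q y, r z)` -/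
structure NF (G : Aff3) (p q r κ : ℝ) : Prop where
  l00 : lin G 0 0 = p
  l01 : lin G 0 1 = κ
  l02 : lin G 0 2 = 0
  l10 : lin G 1 0 = 0
  l11 : lin G 1 1 = q
  l12 : lin G 1 2 = 0
  l20 : lin G 2 0 = 0
  l21 : lin G 2 1 = 0
  l22 : lin G 2 2 = r
  t : ∀ i, tr G i = 0

/-- the upper right entry of the powers -/
noncomputable def MM (p q κ : ℝ) : ℕ → ℝ
  | 0 => 0
  | n + 1 => p * MM p q κ n + κ * q ^ n

theorem NF.pow (hc : S_coord) {G : Aff3} {p q r κ : ℝ} (h : NF G p q r κ) (n : ℕ) :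
    NF (G ^ n) (p ^ n) (q ^ n) (r ^ n) (MM p q κ n) := by
  induction n with
  | zero =>
    rw [pow_zero]
    constructor <;> simp [lin_one, MM, tr_one]
  | succ n ih =>
    have e0 := hc.2.1 G (G ^ n)
    have e1 := hc.2.2.1 G (G ^ n)
    rw [← pow_succ'] at e0 e1
    constructor
    · rw [e0, h.l00, h.l01, h.l02, ih.l00, ih.l10, ih.l20]; ring
    · rw [e0, h.l00, h.l01, h.l02, ih.l01, ih.l11, ih.l21, MM]; ring
    · rw [e0, h.l00, h.l01, h.l02, ih.l02, ih.l12, ih.l22]; ring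
    · rw [e0, h.l10, h.l11, h.l12, ih.l00, ih.l10, ih.l20]; ring
    · rw [e0, h.l10, h.l11, h.l12, ih.l01, ih.l11, ih.l21]; ring
    · rw [e0, h.l10, h.l11, h.l12, ih.l02, ih.l12, ih.l22]; ring
    · rw [e0, h.l20, h.l21, h.l22, ih.l00, ih.l10, ih.l20]; ring
    · rw [e0, h.l20, h.l21, h.l22, ih.l01, ih.l11, ih.l21]; ring
    · rw [e0, h.l20, h.l21, h.l22, ih.l02, ih.l12, ih.l22]; ring
    · intro i
      rw [e1, ih.t, ih.t, ih.t, h.t]; ring

theorem MM_tendsto {p q κ : ℝ} (hp : 0 < p) (hp1 : p < 1) (hq : 0 < q) (hq1 : q < 1) :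
    Tendsto (MM p q κ) atTop (𝓝 0) := by
  set ρ : ℝ := max p ((1 + q) / 2) with hρ
  have h1 : p ≤ ρ := le_max_left _ _
  have h2 : (1 + q) / 2 ≤ ρ := le_max_right _ _
  have h3 : ρ < 1 := max_lt hp1 (by linarith)
  have h4 : 0 < ρ - q := by linarith
  set L : ℝ := |κ| / (ρ - q) with hL
  have hL0 : 0 ≤ L := by positivity
  have hL1 : |κ| + L * q = ρ * L := by
    rw [hL]; field_simp; ring
  have key : ∀ n, |MM p q κ n| + L * q ^ n ≤ L * ρ ^ n := by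
    intro n
    induction n with
    | zero => simp [MM]
    | succ n ih =>
      have h5 : |MM p q κ (n + 1)| ≤ p * |MM p q κ n| + |κ| * q ^ n := by
        rw [MM]
        refine (abs_add_le _ _).trans ?_
        rw [abs_mul, abs_mul, abs_of_pos hp, abs_of_pos (pow_pos hq n)]
      have h6 : p * |MM p q κ n| ≤ ρ * |MM p q κ n| :=
        mul_le_mul_of_nonneg_right h1 (abs_nonneg _)
      calc |MM p q κ (n + 1)| + L * q ^ (n + 1)
          ≤ ρ * |MM p q κ n| + |κ| * q ^ n + L * q ^ (n + 1) := by linarith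
        _ = ρ * |MM p q κ n| + (|κ| + L * q) * q ^ n := by ring
        _ = ρ * (|MM p q κ n| + L * q ^ n) := by rw [hL1]; ring
        _ ≤ ρ * (L * ρ ^ n) := mul_le_mul_of_nonneg_left ih (by linarith)
        _ = L * ρ ^ (n + 1) := by ring
  have h7 : Tendsto (fun n => L * ρ ^ n) atTop (𝓝 0) := by
    have := (tendsto_pow_atTop_nhds_zero_of_lt_one (by linarith : (0 : ℝ) ≤ ρ) h3).const_mul L
    simpa using this
  refine squeeze_zero_norm (fun n => ?_) h7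
  rw [Real.norm_eq_abs]
  have := key n
  have h8 : 0 ≤ L * q ^ n := by positivity
  linarith

/-- unipotent upper triangular elements with prescribed entries -/
structure UT (τ : Aff3) (α β ε b1 b2 c : ℝ) : Prop where
  l00 : lin τ 0 0 = 1
  l01 : lin τ 0 1 = α
  l02 : lin τ 0 2 = β
  l10 : lin τ 1 0 = 0
  l11 : lin τ 1 1 = 1
  l12 : lin τ 1 2 = ε
  l20 : lin τ 2 0 = 0
  l21 : lin τ 2 1 = 0
  l22 : lin τ 2 2 = 1
  t0 : tr τ 0 = b1
  t1 : tr τ 1 = b2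
  t2 : tr τ 2 = c

theorem UT.mk' {τ : Aff3} (h : IsTri τ) (h1 : ∀ i, lin τ i i = 1) :
    UT τ (lin τ 0 1) (lin τ 0 2) (lin τ 1 2) (tr τ 0) (tr τ 1) (tr τ 2) :=
  ⟨h1 0, rfl, rfl, h.1, h1 1, rfl, h.2.1, h.2.2.1, h1 2, rfl, rfl, rfl⟩

/-- conjugation of a unipotent element by a normalised one -/
theorem conj_UT (hc : S_coord) {G τ τ' : Aff3} {p q r κ α β ε b1 b2 c α' β' ε' b1' b2' c' : ℝ}
    (hG : NF G p q r κ) (h : UT τ α β ε b1 b2 c) (h' : UT τ' α' β' ε' b1' b2' c')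
    (he : τ' * G = G * τ) :
    α' * q = p * α ∧ β' * r = p * β + κ * ε ∧ ε' * r = q * ε ∧ b1' = p * b1 + κ * b2 ∧
      b2' = q * b2 ∧ c' = r * c := by
  have e0 := hc.2.1 τ' G
  have e1 := hc.2.2.1 τ' G
  rw [he] at e0 e1
  have f0 := hc.2.1 G τ
  have f1 := hc.2.2.1 G τ
  refine ⟨?_, ?_, ?_, ?_, ?_, ?_⟩
  · have := (e0 0 1).symm.trans (f0 0 1)
    rw [h'.l00, h'.l01, h'.l02, hG.l01, hG.l11, hG.l21, hG.l00, hG.l02, h.l01, h.l11, h.l21] at this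
    linarith
  · have := (e0 0 2).symm.trans (f0 0 2)
    rw [h'.l00, h'.l01, h'.l02, hG.l02, hG.l12, hG.l22, hG.l00, hG.l01, h.l02, h.l12, h.l22] at this
    linarith
  · have := (e0 1 2).symm.trans (f0 1 2)
    rw [h'.l10, h'.l11, h'.l12, hG.l02, hG.l12, hG.l22, hG.l10, hG.l11, h.l02, h.l12, h.l22] at this
    linarith
  · have := (e1 0).symm.trans (f1 0)
    rw [hG.t, hG.t, hG.t, h'.t0, hG.l00, hG.l01, hG.l02, h.t0, h.t1, h.t2] at this
    linarith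
  · have := (e1 1).symm.trans (f1 1)
    rw [hG.t, hG.t, hG.t, h'.t1, hG.l10, hG.l11, hG.l12, h.t0, h.t1, h.t2] at this
    linarith
  · have := (e1 2).symm.trans (f1 2)
    rw [hG.t, hG.t, hG.t, h'.t2, hG.l20, hG.l21, hG.l22, h.t0, h.t1, h.t2] at this
    linarith

/-- relations between commuting unipotent elements -/
theorem comm_UT (hc : S_coord) {τ τ' : Aff3} {α β ε b1 b2 c α' β' ε' b1' b2' c' : ℝ}
    (h : UT τ α β ε b1 b2 c) (h' : UT τ' α' β' ε' b1' b2' c') (he : τ * τ' = τ' * τ) :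
    ε * c' = ε' * c ∧ α * b2' + β * c' = α' * b2 + β' * c := by
  have e1 := hc.2.2.1 τ τ'
  have f1 := hc.2.2.1 τ' τ
  rw [he] at e1
  constructor
  · have := (e1 1).symm.trans (f1 1)
    rw [h.l10, h.l11, h.l12, h.t0, h.t1, h.t2, h'.l10, h'.l11, h'.l12, h'.t0, h'.t1, h'.t2] at this
    linarith
  · have := (e1 0).symm.trans (f1 0)
    rw [h.l00, h.l01, h.l02, h.t0, h.t1, h.t2, h'.l00, h'.l01, h'.l02, h'.t0, h'.t1, h'.t2] at this
    linarith

/-- The context of the argument. -/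
structure Ctx (D : KData) (g : Aff3) (a₀ p q r κ : ℝ) : Prop where
  prp : D.Prp a₀
  a0 : a₀ ≠ 0
  gm : g ∈ D.Γ
  nf : NF g p q r κ
  hp : 0 < p
  hp1 : p < 1
  hq : 0 < q
  hq1 : q < 1
  hr : 1 < r
  h1 : p * q * r = 1

variable {D : KData} {g : Aff3} {a₀ p q r κ : ℝ}

theorem Ctx.diag (X : Ctx D g a₀ p q r κ) {τ : Aff3} (hτ : τ ∈ D.Γ) (h2 : lin τ 2 2 = 1) :
    ∀ i, lin τ i i = 1 := by
  have h0 : lin τ 0 0 = 1 := by rw [X.prp.2 τ hτ, h2, Real.one_rpow]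
  have h3 := (X.prp.1 τ hτ).2.2.2.2.2.2
  rw [h0, h2] at h3
  intro i
  fin_cases i
  · exact h0
  · show lin τ 1 1 = 1
    linarith
  · exact h2

theorem Ctx.ut (X : Ctx D g a₀ p q r κ) {τ : Aff3} (hτ : τ ∈ D.Γ) (h2 : lin τ 2 2 = 1) :
    UT τ (lin τ 0 1) (lin τ 0 2) (lin τ 1 2) (tr τ 0) (tr τ 1) (tr τ 2) :=
  UT.mk' (X.prp.1 τ hτ) (X.diag hτ h2)

theorem tri22 (hc : S_coord) {D : KData} (hT : D.Tri) {γ δ : Aff3} (hγ : γ ∈ D.Γ) :
    lin (γ * δ) 2 2 = lin γ 2 2 * lin δ 2 2 := by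
  rw [hc.2.1, (hT γ hγ).2.1, (hT γ hγ).2.2.1]; ring

theorem tri22_inv (hc : S_coord) {D : KData} (hT : D.Tri) {γ : Aff3} (hγ : γ ∈ D.Γ) :
    lin γ 2 2 * lin γ⁻¹ 2 2 = 1 := by
  rw [← tri22 hc hT hγ, mul_inv_cancel, lin_one]; rfl

theorem Ctx.conj22 (hc : S_coord) (X : Ctx D g a₀ p q r κ) {σ τ : Aff3} (hσ : σ ∈ D.Γ)
    (hτ : τ ∈ D.Γ) (h2 : lin τ 2 2 = 1) : lin (σ * τ * σ⁻¹) 2 2 = 1 := by
  rw [tri22 hc X.prp.1 (mul_mem hσ hτ), tri22 hc X.prp.1 hσ, h2, mul_one]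
  exact tri22_inv hc X.prp.1 hσ

/-- The unstable line of `g` lies in `K`. -/
theorem Ctx.WuK (hc : S_coord) (hP : S_P1) (hF2 : S_F2) (X : Ctx D g a₀ p q r κ) (w : ℝ) :
    (![0, 0, w] : E) ∈ D.K := by
  by_contra hw
  obtain ⟨x, hx, hx2⟩ := hF2 D ![0, 0, 1] 0 (by
    intro h; have := congrFun h 2; simp at this)
  have hx3 : x 2 = 0 := by simpa using hx2
  have hr0 : r ≠ 0 := by have := X.hr; positivity
  have hri : Tendsto (fun n : ℕ => r⁻¹ ^ n) atTop (𝓝 0) :=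
    tendsto_pow_atTop_nhds_zero_of_lt_one (by have := X.hr; positivity)
      (inv_lt_one_of_one_lt₀ X.hr)
  have hinj : Tendsto (fun n : ℕ => g ^ n) atTop cofinite := by
    rw [← Nat.cofinite_eq_atTop]
    apply Function.Injective.tendsto_cofinite
    intro m n hmn
    simp only at hmn
    have h1 := (X.nf.pow hc m).l22
    have h2 := (X.nf.pow hc n).l22
    rw [hmn, h2] at h1
    exact (pow_right_injective₀ (by linarith [X.hr]) (by linarith [X.hr]) h1).symm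
  have h1 : Tendsto (fun n : ℕ => (![x 0, x 1, r⁻¹ ^ n * w] : E)) atTop (𝓝 x) := by
    rw [tendsto_pi_nhds]
    intro i
    fin_cases i
    · exact tendsto_const_nhds
    · exact tendsto_const_nhds
    · show Tendsto (fun n : ℕ => r⁻¹ ^ n * w) atTop (𝓝 (x 2))
      rw [hx3]
      simpa using hri.mul_const w
  have h2 : Tendsto (fun n : ℕ => (g ^ n) (![x 0, x 1, r⁻¹ ^ n * w] : E)) atTop
      (𝓝 (![0, 0, w] : E)) := by
    rw [tendsto_pi_nhds]
    intro i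
    have hn := fun n => X.nf.pow hc n
    fin_cases i
    · have h3 : ∀ n : ℕ, (g ^ n) (![x 0, x 1, r⁻¹ ^ n * w] : E) 0 =
          p ^ n * x 0 + MM p q κ n * x 1 := by
        intro n
        rw [hc.1, (hn n).l00, (hn n).l01, (hn n).l02, (hn n).t]
        simp
      show Tendsto (fun n : ℕ => (g ^ n) (![x 0, x 1, r⁻¹ ^ n * w] : E) 0) atTop (𝓝 0)
      simp only [h3]
      have h4 := (tendsto_pow_atTop_nhds_zero_of_lt_one X.hp.le X.hp1).mul_const (x 0)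
      have h5 := (MM_tendsto (κ := κ) X.hp X.hp1 X.hq X.hq1).mul_const (x 1)
      simpa using h4.add h5
    · have h3 : ∀ n : ℕ, (g ^ n) (![x 0, x 1, r⁻¹ ^ n * w] : E) 1 = q ^ n * x 1 := by
        intro n
        rw [hc.1, (hn n).l10, (hn n).l11, (hn n).l12, (hn n).t]
        simp
      show Tendsto (fun n : ℕ => (g ^ n) (![x 0, x 1, r⁻¹ ^ n * w] : E) 1) atTop (𝓝 0)
      simp only [h3]
      simpa using (tendsto_pow_atTop_nhds_zero_of_lt_one X.hq.le X.hq1).mul_const (x 1)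
    · have h3 : ∀ n : ℕ, (g ^ n) (![x 0, x 1, r⁻¹ ^ n * w] : E) 2 = w := by
        intro n
        rw [hc.1, (hn n).l20, (hn n).l21, (hn n).l22, (hn n).t]
        simp
        field_simp
      show Tendsto (fun n : ℕ => (g ^ n) (![x 0, x 1, r⁻¹ ^ n * w] : E) 2) atTop (𝓝 w)
      simp only [h3]
      exact tendsto_const_nhds
  rcases hP D (fun n => g ^ n) _ _ _ (fun n => pow_mem X.gm n) hinj h1 h2 with h5 | h5
  · exact h5 hx
  · exact hw h5

/-- Elements of `N` commute. -/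
theorem Ctx.comm (hc : S_coord) (hcm : S_comm) (hct : S_contr) (X : Ctx D g a₀ p q r κ)
    {σ τ : Aff3} (hσ : σ ∈ D.Γ) (hτ : τ ∈ D.Γ) (h1 : lin σ 2 2 = 1) (h2 : lin τ 2 2 = 1) :
    σ * τ = τ * σ := by
  have hg2 : lin g 2 2 ≠ 1 := by rw [X.nf.l22]; exact X.hr.ne'
  obtain ⟨hm, ht⟩ := hcm D a₀ X.prp X.a0 ⟨g, X.gm, hg2⟩ σ hσ τ hτ h1 h2
  set s := σ * τ * σ⁻¹ * τ⁻¹ with hs
  have hsm : s ∈ D.Γ := mul_mem (mul_mem (mul_mem hσ hτ) (inv_mem hσ)) (inv_mem hτ)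
  have hsl : ∀ i j, lin s i j = if i = j then 1 else 0 := by
    intro i j
    have : mat s i j = (1 : M3) i j := by rw [hm]
    simpa [mat, Matrix.one_apply] using this
  have hl : ∀ (n : ℕ) i j, lin (g ^ n * s * (g ^ n)⁻¹) i j = if i = j then 1 else 0 := by
    intro n i j
    have h3 : mat (g ^ n * s * (g ^ n)⁻¹) = 1 := by
      rw [hc.2.2.2.2.1, hc.2.2.2.2.1, hm, mul_one, ← hc.2.2.2.2.1, mul_inv_cancel, hc.2.2.2.2.2.1]
    have : mat (g ^ n * s * (g ^ n)⁻¹) i j = (1 : M3) i j := by rw [h3]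
    simpa [mat, Matrix.one_apply] using this
  have htn : ∀ n : ℕ, tr (g ^ n * s * (g ^ n)⁻¹) 0 = p ^ n * tr s 0 + MM p q κ n * tr s 1 ∧
      tr (g ^ n * s * (g ^ n)⁻¹) 1 = q ^ n * tr s 1 ∧ tr (g ^ n * s * (g ^ n)⁻¹) 2 = 0 := by
    intro n
    have u1 : UT s 0 0 0 (tr s 0) (tr s 1) (tr s 2) := by
      constructor <;> first | rfl | simp [hsl]
    have u2 : UT (g ^ n * s * (g ^ n)⁻¹) 0 0 0 (tr (g ^ n * s * (g ^ n)⁻¹) 0)
        (tr (g ^ n * s * (g ^ n)⁻¹) 1) (tr (g ^ n * s * (g ^ n)⁻¹) 2) := by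
      constructor <;> first | rfl | simp [hl]
    obtain ⟨-, -, -, h3, h4, h5⟩ := conj_UT hc (X.nf.pow hc n) u1 u2 (by
      rw [mul_assoc, inv_mul_cancel, mul_one])
    refine ⟨h3, h4, ?_⟩
    rw [h5, ht, mul_zero]
  have hev := hct D (fun n : ℕ => g ^ n * s * (g ^ n)⁻¹)
    (fun n => mul_mem (mul_mem (pow_mem X.gm n) hsm) (inv_mem (pow_mem X.gm n)))
    (by intro i j; simp only [hl]; exact tendsto_const_nhds)
    (by
      intro i
      fin_cases i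
      · show Tendsto (fun n : ℕ => tr (g ^ n * s * (g ^ n)⁻¹) 0) atTop (𝓝 0)
        simp only [fun n => (htn n).1]
        have h4 := (tendsto_pow_atTop_nhds_zero_of_lt_one X.hp.le X.hp1).mul_const (tr s 0)
        have h5 := (MM_tendsto (κ := κ) X.hp X.hp1 X.hq X.hq1).mul_const (tr s 1)
        simpa using h4.add h5
      · show Tendsto (fun n : ℕ => tr (g ^ n * s * (g ^ n)⁻¹) 1) atTop (𝓝 0)
        simp only [fun n => (htn n).2.1]
        simpa using (tendsto_pow_atTop_nhds_zero_of_lt_one X.hq.le X.hq1).mul_const (tr s 1)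
      · show Tendsto (fun n : ℕ => tr (g ^ n * s * (g ^ n)⁻¹) 2) atTop (𝓝 0)
        simp only [fun n => (htn n).2.2]
        exact tendsto_const_nhds)
  obtain ⟨n, hn⟩ := hev.exists
  have h6 : s = 1 := by
    have : g ^ n * s = g ^ n := by
      have h7 : g ^ n * s * (g ^ n)⁻¹ * g ^ n = 1 * g ^ n := by rw [hn]
      rwa [mul_assoc, inv_mul_cancel, mul_one, one_mul] at h7
    exact mul_eq_left.1 this
  rw [hs] at h6
  have h8 : σ * τ * σ⁻¹ = τ := by rw [← mul_inv_eq_one]; exact h6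
  exact mul_inv_eq_iff_eq_mul.1 h8

/-- conjugation by `g`, entries -/
theorem Ctx.cj (hc : S_coord) (X : Ctx D g a₀ p q r κ) {τ : Aff3} (hτ : τ ∈ D.Γ)
    (h2 : lin τ 2 2 = 1) : ∃ τ' ∈ D.Γ, lin τ' 2 2 = 1 ∧ τ' = g * τ * g⁻¹ ∧
      lin τ' 0 1 * q = p * lin τ 0 1 ∧ lin τ' 0 2 * r = p * lin τ 0 2 + κ * lin τ 1 2 ∧
      lin τ' 1 2 * r = q * lin τ 1 2 ∧ tr τ' 0 = p * tr τ 0 + κ * tr τ 1 ∧
      tr τ' 1 = q * tr τ 1 ∧ tr τ' 2 = r * tr τ 2 := by
  have hm : g * τ * g⁻¹ ∈ D.Γ := mul_mem (mul_mem X.gm hτ) (inv_mem X.gm)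
  have h22 := X.conj22 hc X.gm hτ h2
  exact ⟨_, hm, h22, rfl, conj_UT hc X.nf (X.ut hτ h2) (X.ut hm h22) (by
    rw [mul_assoc, inv_mul_cancel, mul_one])⟩

/-- existence of an element with `1 < c < 2` -/
theorem Ctx.exc (hd : S_densN) (X : Ctx D g a₀ p q r κ) :
    ∃ τ ∈ D.Γ, lin τ 2 2 = 1 ∧ 0 < tr τ 2 := by
  obtain ⟨τ, h1, h2, h3, -⟩ := hd D X.prp.1 ⟨g, X.gm, by rw [X.nf.l22]; exact X.hr.ne'⟩ 1 2
    (by norm_num)
  exact ⟨τ, h1, h2 2, by linarith⟩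

/-- `ε = 0` on `N` -/
theorem Ctx.eps (hc : S_coord) (hcm : S_comm) (hct : S_contr) (hd : S_densN)
    (X : Ctx D g a₀ p q r κ) {τ : Aff3} (hτ : τ ∈ D.Γ) (h2 : lin τ 2 2 = 1) :
    lin τ 1 2 = 0 := by
  have key : ∀ σ ∈ D.Γ, lin σ 2 2 = 1 → lin σ 1 2 * tr σ 2 = 0 := by
    intro σ hσ h3
    obtain ⟨σ', hσ', h4, -, -, -, h5, -, -, h6⟩ := X.cj hc hσ h3
    have h7 := (comm_UT hc (X.ut hσ h3) (X.ut hσ' h4) (X.comm hc hcm hct hσ hσ' h3 h4)).1
    have h8 : (r ^ 2 - q) * (lin σ 1 2 * tr σ 2) = 0 := by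
      rw [h6] at h7
      linear_combination r * h7 + tr σ 2 * h5
    have h9 : r ^ 2 - q ≠ 0 := by nlinarith [X.hr, X.hq1]
    exact (mul_eq_zero.1 h8).resolve_left h9
  obtain ⟨σ, hσ, h3, h4⟩ := X.exc hd
  have h5 : lin σ 1 2 = 0 := (mul_eq_zero.1 (key σ hσ h3)).resolve_right h4.ne'
  have h7 := (comm_UT hc (X.ut hτ h2) (X.ut hσ h3) (X.comm hc hcm hct hτ hσ h2 h3)).1
  rw [h5, zero_mul] at h7
  exact (mul_eq_zero.1 h7).resolve_right h4.ne'

/-- the relations `ω(τ, g^n σ g^-n) = 0` -/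
theorem Ctx.rel (hc : S_coord) (hcm : S_comm) (hct : S_contr) (hd : S_densN)
    (X : Ctx D g a₀ p q r κ) {τ σ : Aff3} (hτ : τ ∈ D.Γ) (h2 : lin τ 2 2 = 1) (hσ : σ ∈ D.Γ)
    (h3 : lin σ 2 2 = 1) (n : ℕ) :
    lin τ 0 1 * (q ^ n * tr σ 1) - (p ^ 2 * r) ^ n * lin σ 0 1 * tr τ 1 +
      lin τ 0 2 * (r ^ n * tr σ 2) - (p ^ 2 * q) ^ n * lin σ 0 2 * tr τ 2 = 0 := by
  have key : ∃ σ' ∈ D.Γ, lin σ' 2 2 = 1 ∧ lin σ' 0 1 = (p ^ 2 * r) ^ n * lin σ 0 1 ∧
      lin σ' 0 2 = (p ^ 2 * q) ^ n * lin σ 0 2 ∧ tr σ' 1 = q ^ n * tr σ 1 ∧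
      tr σ' 2 = r ^ n * tr σ 2 := by
    induction n with
    | zero => exact ⟨σ, hσ, h3, by simp, by simp, by simp, by simp⟩
    | succ n ih =>
      obtain ⟨σ₁, hσ₁, h4, h5, h6, h7, h8⟩ := ih
      obtain ⟨σ₂, hσ₂, h9, -, h10, h11, -, -, h12, h13⟩ := X.cj hc hσ₁ h4
      rw [X.eps hc hcm hct hd hσ₁ h4, mul_zero, add_zero] at h11
      have h1 := X.h1
      refine ⟨σ₂, hσ₂, h9, ?_, ?_, ?_, ?_⟩
      · rw [h5] at h10
        linear_combination p * r * h10 - lin σ₂ 0 1 * h1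
      · rw [h6] at h11
        linear_combination p * q * h11 - lin σ₂ 0 2 * h1
      · rw [h12, h7]; ring
      · rw [h13, h8]; ring
  obtain ⟨σ', hσ', h4, h5, h6, h7, h8⟩ := key
  have h9 := (comm_UT hc (X.ut hτ h2) (X.ut hσ' h4) (X.comm hc hcm hct hτ hσ' h2 h4)).2
  rw [h5, h6, h7, h8] at h9
  linarith

/-- `β = 0` on `N` -/
theorem Ctx.bet (hc : S_coord) (hcm : S_comm) (hct : S_contr) (hd : S_densN)
    (X : Ctx D g a₀ p q r κ) {τ : Aff3} (hτ : τ ∈ D.Γ) (h2 : lin τ 2 2 = 1) :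
    lin τ 0 2 = 0 := by
  obtain ⟨σ, hσ, h3, h4⟩ := X.exc hd
  have e0 := X.rel hc hcm hct hd hτ h2 hσ h3 0
  have e1 := X.rel hc hcm hct hd hτ h2 hσ h3 1
  have e2 := X.rel hc hcm hct hd hτ h2 hσ h3 2
  have e3 := X.rel hc hcm hct hd hτ h2 hσ h3 3
  have hp := X.hp
  have hp1 := X.hp1
  have hq := X.hq
  have hq1 := X.hq1
  have hr := X.hr
  have h5 : (r - q) * (r - p ^ 2 * r) * (r - p ^ 2 * q) * (lin τ 0 2 * tr σ 2) = 0 := by
    linear_combination e3 - (q + p ^ 2 * r + p ^ 2 * q) * e2 +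
      (q * (p ^ 2 * r) + q * (p ^ 2 * q) + (p ^ 2 * r) * (p ^ 2 * q)) * e1 -
      q * (p ^ 2 * r) * (p ^ 2 * q) * e0
  have hp2 : p ^ 2 < 1 := by nlinarith
  have h6 : r - q ≠ 0 := by linarith
  have h7 : r - p ^ 2 * r ≠ 0 := by nlinarith
  have h8 : r - p ^ 2 * q ≠ 0 := by nlinarith
  have h9 : lin τ 0 2 * tr σ 2 = 0 :=
    (mul_eq_zero.1 h5).resolve_left (mul_ne_zero (mul_ne_zero h6 h7) h8)
  exact (mul_eq_zero.1 h9).resolve_right h4.ne'

/-- `α b₂' = α' b₂`, and `= 0` if `q ≠ p² r` -/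
theorem Ctx.ab (hc : S_coord) (hcm : S_comm) (hct : S_contr) (hd : S_densN)
    (X : Ctx D g a₀ p q r κ) {τ σ : Aff3} (hτ : τ ∈ D.Γ) (h2 : lin τ 2 2 = 1) (hσ : σ ∈ D.Γ)
    (h3 : lin σ 2 2 = 1) : lin τ 0 1 * tr σ 1 = lin σ 0 1 * tr τ 1 ∧
      (q - p ^ 2 * r) * (lin τ 0 1 * tr σ 1) = 0 := by
  have e0 := X.rel hc hcm hct hd hτ h2 hσ h3 0
  have e1 := X.rel hc hcm hct hd hτ h2 hσ h3 1
  rw [X.bet hc hcm hct hd hτ h2, X.bet hc hcm hct hd hσ h3] at e0 e1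
  constructor
  · linarith
  · linear_combination e1 - p ^ 2 * r * e0

theorem ut_mul (hc : S_coord) {τ τ' : Aff3} {α b1 b2 c α' b1' b2' c' : ℝ}
    (h : UT τ α 0 0 b1 b2 c) (h' : UT τ' α' 0 0 b1' b2' c') :
    UT (τ * τ') (α + α') 0 0 (b1 + b1' + α * b2') (b2 + b2') (c + c') := by
  have e0 := hc.2.1 τ τ'
  have e1 := hc.2.2.1 τ τ'
  constructor
  · rw [e0, h.l00, h.l01, h.l02, h'.l00, h'.l10, h'.l20]; ring
  · rw [e0, h.l00, h.l01, h.l02, h'.l01, h'.l11, h'.l21]; ring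
  · rw [e0, h.l00, h.l01, h.l02, h'.l02, h'.l12, h'.l22]; ring
  · rw [e0, h.l10, h.l11, h.l12, h'.l00, h'.l10, h'.l20]; ring
  · rw [e0, h.l10, h.l11, h.l12, h'.l01, h'.l11, h'.l21]; ring
  · rw [e0, h.l10, h.l11, h.l12, h'.l02, h'.l12, h'.l22]; ring
  · rw [e0, h.l20, h.l21, h.l22, h'.l00, h'.l10, h'.l20]; ring
  · rw [e0, h.l20, h.l21, h.l22, h'.l01, h'.l11, h'.l21]; ring
  · rw [e0, h.l20, h.l21, h.l22, h'.l02, h'.l12, h'.l22]; ring
  · rw [e1, h.l00, h.l01, h.l02, h.t0, h'.t0, h'.t1, h'.t2]; ring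
  · rw [e1, h.l10, h.l11, h.l12, h.t1, h'.t0, h'.t1, h'.t2]; ring
  · rw [e1, h.l20, h.l21, h.l22, h.t2, h'.t0, h'.t1, h'.t2]; ring

/-- reduced form on `N` -/
theorem Ctx.ut' (hc : S_coord) (hcm : S_comm) (hct : S_contr) (hd : S_densN)
    (X : Ctx D g a₀ p q r κ) {τ : Aff3} (hτ : τ ∈ D.Γ) (h2 : lin τ 2 2 = 1) :
    UT τ (lin τ 0 1) 0 0 (tr τ 0) (tr τ 1) (tr τ 2) := by
  have h := X.ut hτ h2
  rwa [X.bet hc hcm hct hd hτ h2, X.eps hc hcm hct hd hτ h2] at h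

theorem lin22_inv_one (hc : S_coord) {D : KData} (hT : D.Tri) {τ : Aff3} (hτ : τ ∈ D.Γ)
    (h2 : lin τ 2 2 = 1) : lin τ⁻¹ 2 2 = 1 := by
  have := tri22_inv hc hT hτ
  rwa [h2, one_mul] at this

theorem eq_one_of (hc : S_coord) {τ : Aff3} (h : UT τ 0 0 0 0 0 0) : τ = 1 := by
  apply hc.2.2.2.1
  · intro i j
    rw [lin_one]
    fin_cases i <;> fin_cases j <;> simp [h.l00, h.l01, h.l02, h.l10, h.l11, h.l12, h.l20, h.l21,
      h.l22]
  · intro i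
    rw [tr_one]
    fin_cases i <;> simp [h.t0, h.t1, h.t2]

/-- the line over `(b₁, b₂)` is in `K` -/
theorem Ctx.lineK (hc : S_coord) (hcm : S_comm) (hct : S_contr) (hd : S_densN) (hP : S_P1)
    (hF2 : S_F2) (hK : S_K) (X : Ctx D g a₀ p q r κ) {τ : Aff3} (hτ : τ ∈ D.Γ)
    (h2 : lin τ 2 2 = 1) (z : ℝ) : (![tr τ 0, tr τ 1, z] : E) ∈ D.K := by
  have h := X.ut' hc hcm hct hd hτ h2
  have h1 := ((hK D).2 τ hτ _).2 (X.WuK hc hP hF2 (z - tr τ 2))
  have h3 : τ (![0, 0, z - tr τ 2] : E) = ![tr τ 0, tr τ 1, z] := by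
    ext i
    rw [hc.1]
    fin_cases i <;> simp [h.l02, h.l12, h.l22]
  rwa [h3] at h1

/-- Case of translations. -/
theorem Ctx.caseT (hc : S_coord) (hcm : S_comm) (hct : S_contr) (hd : S_densN) (hP : S_P1)
    (hF2 : S_F2) (hK : S_K) (hnd : S_nondisc) (X : Ctx D g a₀ p q r κ)
    (hα : ∀ τ ∈ D.Γ, lin τ 2 2 = 1 → lin τ 0 1 = 0) : False := by
  have hut : ∀ τ ∈ D.Γ, lin τ 2 2 = 1 → UT τ 0 0 0 (tr τ 0) (tr τ 1) (tr τ 2) := by
    intro τ hτ h2
    have := X.ut' hc hcm hct hd hτ h2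
    rwa [hα τ hτ h2] at this
  by_cases hz : ∀ τ ∈ D.Γ, lin τ 2 2 = 1 → tr τ 0 = 0 ∧ tr τ 1 = 0
  · -- vertical translations are contracted by `g⁻¹`
    obtain ⟨τ, hτ, h2, h3⟩ := X.exc hd
    have hm : ∀ n : ℕ, (g ^ n)⁻¹ * τ * g ^ n ∈ D.Γ := fun n =>
      mul_mem (mul_mem (inv_mem (pow_mem X.gm n)) hτ) (pow_mem X.gm n)
    have h22 : ∀ n : ℕ, lin ((g ^ n)⁻¹ * τ * g ^ n) 2 2 = 1 := by
      intro n
      have := X.conj22 hc (inv_mem (pow_mem X.gm n)) hτ h2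
      rwa [inv_inv] at this
    have ht : ∀ n : ℕ, tr ((g ^ n)⁻¹ * τ * g ^ n) 2 = (r⁻¹) ^ n * tr τ 2 := by
      intro n
      obtain ⟨-, -, -, -, -, h5⟩ := conj_UT hc (X.nf.pow hc n) (hut _ (hm n) (h22 n))
        (hut τ hτ h2) (by rw [mul_assoc, ← mul_assoc (g ^ n), mul_inv_cancel, one_mul])
      rw [h5, ← mul_assoc, ← mul_pow, inv_mul_cancel₀ (by have := X.hr; positivity), one_pow,
        one_mul]
    have hev := hct D (fun n : ℕ => (g ^ n)⁻¹ * τ * g ^ n) hm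
      (by
        intro i j
        have h6 : ∀ n : ℕ, lin ((g ^ n)⁻¹ * τ * g ^ n) i j = if i = j then 1 else 0 := by
          intro n
          have h := hut _ (hm n) (h22 n)
          fin_cases i <;> fin_cases j <;> simp [h.l00, h.l01, h.l02, h.l10, h.l11, h.l12, h.l20,
            h.l21, h.l22]
        simp only [h6]
        exact tendsto_const_nhds)
      (by
        intro i
        fin_cases i
        · show Tendsto (fun n : ℕ => tr ((g ^ n)⁻¹ * τ * g ^ n) 0) atTop (𝓝 0)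
          simp only [fun n => (hz _ (hm n) (h22 n)).1]
          exact tendsto_const_nhds
        · show Tendsto (fun n : ℕ => tr ((g ^ n)⁻¹ * τ * g ^ n) 1) atTop (𝓝 0)
          simp only [fun n => (hz _ (hm n) (h22 n)).2]
          exact tendsto_const_nhds
        · show Tendsto (fun n : ℕ => tr ((g ^ n)⁻¹ * τ * g ^ n) 2) atTop (𝓝 0)
          simp only [ht]
          have hri : Tendsto (fun n : ℕ => r⁻¹ ^ n) atTop (𝓝 0) :=
            tendsto_pow_atTop_nhds_zero_of_lt_one (by have := X.hr; positivity)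
              (inv_lt_one_of_one_lt₀ X.hr)
          simpa using hri.mul_const (tr τ 2))
    obtain ⟨n, hn⟩ := hev.exists
    have h7 := ht n
    rw [hn, tr_one] at h7
    have h8 : 0 < r⁻¹ ^ n * tr τ 2 := mul_pos (pow_pos (by have := X.hr; positivity) n) h3
    linarith
  · push Not at hz
    obtain ⟨τ₀, hτ₀, h20, h30⟩ := hz
    -- the group of horizontal parts
    let T : AddSubgroup (Fin 2 → ℝ) :=
      { carrier := {t | ∃ τ ∈ D.Γ, lin τ 2 2 = 1 ∧ tr τ 0 = t 0 ∧ tr τ 1 = t 1}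
        zero_mem' := ⟨1, one_mem _, by rw [lin_one]; rfl, rfl, rfl⟩
        add_mem' := by
          rintro a b ⟨τ, hτ, h1, h2, h3⟩ ⟨σ, hσ, h4, h5, h6⟩
          have h := ut_mul hc (hut τ hτ h1) (hut σ hσ h4)
          refine ⟨τ * σ, mul_mem hτ hσ, h.l22, ?_, ?_⟩
          · rw [h.t0, h2, h5]; simp
          · rw [h.t1, h3, h6]; simp
        neg_mem' := by
          rintro a ⟨τ, hτ, h1, h2, h3⟩
          have h4 := lin22_inv_one hc X.prp.1 hτ h1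
          have h := ut_mul hc (hut τ hτ h1) (hut τ⁻¹ (inv_mem hτ) h4)
          rw [mul_inv_cancel] at h
          have h5 := h.t0
          have h6 := h.t1
          rw [tr_one] at h5 h6
          refine ⟨τ⁻¹, inv_mem hτ, h4, ?_, ?_⟩
          · simp only [Pi.neg_apply]; linarith
          · simp only [Pi.neg_apply]; linarith }
    have hT : ∀ ε > 0, ∃ t ∈ T, t ≠ 0 ∧ ‖t‖ < ε := by
      intro ε hε
      set f : ℕ → Fin 2 → ℝ := fun n => ![p ^ n * tr τ₀ 0 + MM p q κ n * tr τ₀ 1,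
        q ^ n * tr τ₀ 1] with hf
      have hf0 : Tendsto f atTop (𝓝 0) := by
        rw [tendsto_pi_nhds]
        intro i
        fin_cases i
        · show Tendsto (fun n => p ^ n * tr τ₀ 0 + MM p q κ n * tr τ₀ 1) atTop (𝓝 0)
          have h4 := (tendsto_pow_atTop_nhds_zero_of_lt_one X.hp.le X.hp1).mul_const (tr τ₀ 0)
          have h5 := (MM_tendsto (κ := κ) X.hp X.hp1 X.hq X.hq1).mul_const (tr τ₀ 1)
          simpa using h4.add h5
        · show Tendsto (fun n => q ^ n * tr τ₀ 1) atTop (𝓝 0)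
          simpa using (tendsto_pow_atTop_nhds_zero_of_lt_one X.hq.le X.hq1).mul_const (tr τ₀ 1)
      have hmem : ∀ n, f n ∈ T := by
        intro n
        have hm : g ^ n * τ₀ * (g ^ n)⁻¹ ∈ D.Γ :=
          mul_mem (mul_mem (pow_mem X.gm n) hτ₀) (inv_mem (pow_mem X.gm n))
        have h22 := X.conj22 hc (pow_mem X.gm n) hτ₀ h20
        obtain ⟨-, -, -, h3, h4, -⟩ := conj_UT hc (X.nf.pow hc n) (hut τ₀ hτ₀ h20)
          (hut _ hm h22) (by rw [mul_assoc, inv_mul_cancel, mul_one])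
        exact ⟨_, hm, h22, h3, h4⟩
      have hne : ∀ n, f n ≠ 0 := by
        intro n h0
        have h1 := congrFun h0 1
        have h2 := congrFun h0 0
        simp only [hf, Matrix.cons_val_one, Matrix.cons_val_zero, Pi.zero_apply] at h1 h2
        have h3 : tr τ₀ 1 = 0 := (mul_eq_zero.1 h1).resolve_left (pow_pos X.hq n).ne'
        rw [h3, mul_zero, add_zero] at h2
        exact h30 ((mul_eq_zero.1 h2).resolve_left (pow_pos X.hp n).ne') h3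
      obtain ⟨n, hn⟩ := ((tendsto_order.1 (tendsto_norm_zero.comp hf0)).2 ε
        hε).exists
      exact ⟨f n, hmem n, hne n, hn⟩
    obtain ⟨w, hw0, hw⟩ := hnd T hT
    have hcl : closure (T : Set (Fin 2 → ℝ)) ⊆ {v | ∀ z : ℝ, (![v 0, v 1, z] : E) ∈ D.K} := by
      apply closure_minimal
      · rintro v ⟨τ, hτ, h1, h2, h3⟩ z
        have := X.lineK hc hcm hct hd hP hF2 hK hτ h1 z
        rwa [h2, h3] at this
      · rw [Set.ofPred_forall]
        apply isClosed_iInter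
        intro z
        exact (hK D).1.preimage (by fun_prop)
    obtain ⟨x, hx, hx2⟩ := hF2 D ![w 1, -w 0, 0] 0 (by
      intro h
      apply hw0
      have h1 := congrFun h 0
      have h2 := congrFun h 1
      simp at h1 h2
      ext i; fin_cases i
      · exact h2
      · exact h1)
    have hx3 : w 1 * x 0 = w 0 * x 1 := by
      simp at hx2
      linarith
    obtain ⟨a, ha0, ha1⟩ : ∃ a : ℝ, x 0 = a * w 0 ∧ x 1 = a * w 1 := by
      rcases eq_or_ne (w 0) 0 with h0 | h0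
      · have h1 : w 1 ≠ 0 := by
          intro h1
          apply hw0
          ext i; fin_cases i
          · exact h0
          · exact h1
        refine ⟨x 1 / w 1, ?_, by field_simp⟩
        rw [h0, zero_mul] at hx3
        rw [h0, mul_zero]
        exact (mul_eq_zero.1 hx3).resolve_left h1
      · refine ⟨x 0 / w 0, by field_simp, ?_⟩
        rw [div_mul_eq_mul_div, eq_div_iff h0]
        linear_combination -hx3
    have h4 := hcl (hw a) (x 2)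
    have h5 : (![(a • w) 0, (a • w) 1, x 2] : E) = x := by
      ext i; fin_cases i
      · simp [ha0]
      · simp [ha1]
      · rfl
    rw [h5] at h4
    exact h4 hx

/-- Shear case. -/
theorem Ctx.caseS (hc : S_coord) (hcm : S_comm) (hct : S_contr) (hd : S_densN)
    (hF2 : S_F2) (hys : S_ys) (X : Ctx D g a₀ p q r κ)
    (hb : ∀ τ ∈ D.Γ, lin τ 2 2 = 1 → tr τ 1 = 0) {τ : Aff3} (hτ : τ ∈ D.Γ) (h2 : lin τ 2 2 = 1)
    (hα : lin τ 0 1 ≠ 0) : False := by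
  have h := X.ut' hc hcm hct hd hτ h2
  have hc2 : tr τ 2 ≠ 0 := by
    intro h0
    obtain ⟨x, hx, hx2⟩ := hF2 D ![0, lin τ 0 1, 0] (-tr τ 0) (by
      intro h
      have := congrFun h 1
      simp at this
      exact hα this)
    have hx3 : lin τ 0 1 * x 1 = - tr τ 0 := by simpa using hx2
    have h3 : τ x = x := by
      ext i
      rw [hc.1]
      fin_cases i
      · simp [h.l00, h.l02]; linarith
      · simp [h.l10, h.l11, h.l12, hb τ hτ h2]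
      · simp [h.l20, h.l21, h.l22, h0]
    have h4 := D.free τ hτ x hx h3
    apply hα
    rw [h4, lin_one]; rfl
  obtain ⟨σ, hσ, h22, -, h3, -, -, -, -, h4⟩ := X.cj hc hτ h2
  have h' := X.ut' hc hcm hct hd hσ h22
  have hr := X.hr
  have hp := X.hp
  have hp1 := X.hp1
  refine hys D τ σ X.prp.1 hτ hσ (X.diag hτ h2) (X.diag hσ h22) h.l02 h.l12 (hb τ hτ h2) h'.l02
    h'.l12 (hb σ hσ h22) hc2 (by rw [h4]; exact mul_ne_zero (by positivity) hc2) ?_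
  intro h5
  rw [h4] at h5
  -- `lin σ 0 1 = p² r lin τ 0 1`
  have h6 : lin σ 0 1 = p ^ 2 * r * lin τ 0 1 := by
    linear_combination p * r * h3 - lin σ 0 1 * X.h1
  rw [h6] at h5
  have h7 : (1 - p ^ 2) * (r * (lin τ 0 1 * tr τ 2)) = 0 := by linear_combination h5
  have h8 : 1 - p ^ 2 ≠ 0 := by nlinarith
  have h9 : r * (lin τ 0 1 * tr τ 2) ≠ 0 :=
    mul_ne_zero (by positivity) (mul_ne_zero hα hc2)
  exact (mul_ne_zero h8 h9) h7

theorem floor_tendsto {ρ : ℕ → ℝ} (h0 : Tendsto ρ atTop (𝓝 0)) (hp : ∀ n, ρ n ≠ 0) (t : ℝ) :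
    Tendsto (fun n => (⌊t / ρ n⌋ : ℝ) * ρ n) atTop (𝓝 t) := by
  have h1 : ∀ n, |(⌊t / ρ n⌋ : ℝ) * ρ n - t| ≤ |ρ n| := by
    intro n
    have h2 : (⌊t / ρ n⌋ : ℝ) * ρ n - t = -(Int.fract (t / ρ n)) * ρ n := by
      have h3 : t = t / ρ n * ρ n := (div_mul_cancel₀ t (hp n)).symm
      have h4 := Int.self_sub_floor (t / ρ n)
      calc (⌊t / ρ n⌋ : ℝ) * ρ n - t = (⌊t / ρ n⌋ : ℝ) * ρ n - t / ρ n * ρ n := by rw [← h3]
        _ = -(Int.fract (t / ρ n)) * ρ n := by rw [← h4]; ring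
    rw [h2, abs_mul, abs_neg, abs_of_nonneg (Int.fract_nonneg _)]
    exact mul_le_of_le_one_left (abs_nonneg _) (Int.fract_lt_one _).le
  have h3 : Tendsto (fun n => |ρ n|) atTop (𝓝 0) := by simpa using h0.abs
  have h5 : Tendsto (fun n => (⌊t / ρ n⌋ : ℝ) * ρ n - t) atTop (𝓝 0) :=
    squeeze_zero_norm (fun n => by rw [Real.norm_eq_abs]; exact h1 n) h3
  simpa using h5.add_const t

/-- multiples of small elements of a closed subgroup -/
theorem mult_closure {T : AddSubgroup (Fin 2 → ℝ)} {ρ : ℕ → ℝ} {v : ℕ → Fin 2 → ℝ}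
    {w : Fin 2 → ℝ} (h0 : Tendsto ρ atTop (𝓝 0)) (hp : ∀ n, ρ n ≠ 0)
    (hv : Tendsto v atTop (𝓝 w)) (hm : ∀ n, ρ n • v n ∈ T.topologicalClosure) (t : ℝ) :
    t • w ∈ T.topologicalClosure := by
  have h1 : Tendsto (fun n => ((⌊t / ρ n⌋ : ℝ) * ρ n) • v n) atTop (𝓝 (t • w)) :=
    (floor_tendsto h0 hp t).smul hv
  refine T.isClosed_topologicalClosure.mem_of_tendsto h1 (Eventually.of_forall fun n => ?_)
  have : ((⌊t / ρ n⌋ : ℝ) * ρ n) • v n = ⌊t / ρ n⌋ • (ρ n • v n) := by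
    rw [← smul_smul, Int.cast_smul_eq_zsmul]
  rw [this]
  exact T.topologicalClosure.zsmul_mem (hm n) _

/-- The parabolic case. -/
theorem Ctx.caseP (hc : S_coord) (hcm : S_comm) (hct : S_contr) (hd : S_densN) (hP : S_P1)
    (hF1 : S_F1) (hF2 : S_F2) (hK : S_K) (X : Ctx D g a₀ p q r κ) (hpq : p = q ^ 2)
    (hκ : κ = 0) {k : ℝ} (hk : k ≠ 0)
    (hb : ∀ τ ∈ D.Γ, lin τ 2 2 = 1 → tr τ 1 = k * lin τ 0 1) {τ₀ : Aff3} (hτ₀ : τ₀ ∈ D.Γ)
    (h20 : lin τ₀ 2 2 = 1) (hα : lin τ₀ 0 1 ≠ 0) : False := by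
  subst hκ
  subst hpq
  -- `B` : the group of parts `(b₁', b₂)`
  set bb : Aff3 → ℝ := fun τ => tr τ 0 - (tr τ 1) ^ 2 / (2 * k) with hbb
  have hbm : ∀ τ ∈ D.Γ, ∀ σ ∈ D.Γ, lin τ 2 2 = 1 → lin σ 2 2 = 1 →
      bb (τ * σ) = bb τ + bb σ ∧ tr (τ * σ) 1 = tr τ 1 + tr σ 1 := by
    intro τ hτ σ hσ h1 h2
    have h := ut_mul hc (X.ut' hc hcm hct hd hτ h1) (X.ut' hc hcm hct hd hσ h2)
    have h3 := hb τ hτ h1
    refine ⟨?_, h.t1⟩
    simp only [hbb]
    rw [h.t0, h.t1, h3]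
    field_simp
    ring
  have hbc : ∀ τ ∈ D.Γ, lin τ 2 2 = 1 → ∃ σ ∈ D.Γ, lin σ 2 2 = 1 ∧
      bb σ = q ^ 2 * bb τ ∧ tr σ 1 = q * tr τ 1 := by
    intro τ hτ h1
    obtain ⟨σ, hσ, h2, -, -, -, -, h3, h4, -⟩ := X.cj hc hτ h1
    refine ⟨σ, hσ, h2, ?_, h4⟩
    simp only [hbb]
    rw [h3, h4]
    ring
  have hq := X.hq
  have hq1 := X.hq1
  let T : AddSubgroup (Fin 2 → ℝ) :=
    { carrier := {t | ∃ τ ∈ D.Γ, lin τ 2 2 = 1 ∧ bb τ = t 0 ∧ tr τ 1 = t 1}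
      zero_mem' := ⟨1, one_mem _, by rw [lin_one]; rfl, by simp [hbb, tr_one], rfl⟩
      add_mem' := by
        rintro a b ⟨τ, hτ, h1, h2, h3⟩ ⟨σ, hσ, h4, h5, h6⟩
        obtain ⟨h7, h8⟩ := hbm τ hτ σ hσ h1 h4
        refine ⟨τ * σ, mul_mem hτ hσ, by rw [tri22 hc X.prp.1 hτ, h1, h4, one_mul], ?_, ?_⟩
        · rw [h7, h2, h5]; simp
        · rw [h8, h3, h6]; simp
      neg_mem' := by
        rintro a ⟨τ, hτ, h1, h2, h3⟩
        have h4 := lin22_inv_one hc X.prp.1 hτ h1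
        obtain ⟨h7, h8⟩ := hbm τ hτ τ⁻¹ (inv_mem hτ) h1 h4
        rw [mul_inv_cancel, tr_one] at h8
        have h9 : bb 1 = 0 := by simp [hbb, tr_one]
        rw [mul_inv_cancel, h9] at h7
        refine ⟨τ⁻¹, inv_mem hτ, h4, ?_, ?_⟩
        · simp only [Pi.neg_apply]; linarith
        · simp only [Pi.neg_apply]; linarith }
  have hTm : ∀ τ ∈ D.Γ, lin τ 2 2 = 1 → (![bb τ, tr τ 1] : Fin 2 → ℝ) ∈ T := fun τ hτ h =>
    ⟨τ, hτ, h, rfl, rfl⟩
  have hTn : ∀ τ ∈ D.Γ, lin τ 2 2 = 1 → ∀ n : ℕ,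
      (![q ^ (2 * n) * bb τ, q ^ n * tr τ 1] : Fin 2 → ℝ) ∈ T := by
    intro τ hτ h1 n
    have : ∃ σ ∈ D.Γ, lin σ 2 2 = 1 ∧ bb σ = q ^ (2 * n) * bb τ ∧ tr σ 1 = q ^ n * tr τ 1 := by
      induction n with
      | zero => exact ⟨τ, hτ, h1, by simp, by simp⟩
      | succ n ih =>
        obtain ⟨σ, hσ, h2, h3, h4⟩ := ih
        obtain ⟨σ', hσ', h5, h6, h7⟩ := hbc σ hσ h2
        exact ⟨σ', hσ', h5, by rw [h6, h3]; ring, by rw [h7, h4]; ring⟩
    obtain ⟨σ, hσ, h2, h3, h4⟩ := this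
    exact ⟨σ, hσ, h2, h3, h4⟩
  have hqn : Tendsto (fun n : ℕ => q ^ n) atTop (𝓝 0) :=
    tendsto_pow_atTop_nhds_zero_of_lt_one hq.le hq1
  have hq2n : Tendsto (fun n : ℕ => (q ^ 2) ^ n) atTop (𝓝 0) :=
    tendsto_pow_atTop_nhds_zero_of_lt_one (by positivity) (by nlinarith)
  -- the `y`-axis
  have hb2 : tr τ₀ 1 ≠ 0 := by rw [hb τ₀ hτ₀ h20]; exact mul_ne_zero hk hα
  have hy : ∀ t : ℝ, (![0, t] : Fin 2 → ℝ) ∈ T.topologicalClosure := by
    intro t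
    have h1 := mult_closure (T := T) (ρ := fun n => q ^ n)
      (v := fun n => (![q ^ n * bb τ₀, tr τ₀ 1] : Fin 2 → ℝ)) (w := ![0, tr τ₀ 1]) hqn
      (fun n => (pow_pos hq n).ne')
      (by
        rw [tendsto_pi_nhds]
        intro i
        fin_cases i
        · show Tendsto (fun n => q ^ n * bb τ₀) atTop (𝓝 0)
          simpa using hqn.mul_const (bb τ₀)
        · exact tendsto_const_nhds)
      (by
        intro n
        apply T.le_topologicalClosure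
        have := hTn τ₀ hτ₀ h20 n
        convert this using 1
        ext i
        fin_cases i
        · simp; ring
        · simp)
      (t / tr τ₀ 1)
    have h2 : (t / tr τ₀ 1) • (![0, tr τ₀ 1] : Fin 2 → ℝ) = ![0, t] := by
      ext i
      fin_cases i
      · simp
      · simp [hb2]
    rwa [h2] at h1
  have hcl : ∀ v : Fin 2 → ℝ, v ∈ T.topologicalClosure → ∀ z : ℝ,
      (![v 0 + (v 1) ^ 2 / (2 * k), v 1, z] : E) ∈ D.K := by
    have : closure (T : Set (Fin 2 → ℝ)) ⊆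
        {v | ∀ z : ℝ, (![v 0 + (v 1) ^ 2 / (2 * k), v 1, z] : E) ∈ D.K} := by
      apply closure_minimal
      · rintro v ⟨τ, hτ, h1, h2, h3⟩ z
        have := X.lineK hc hcm hct hd hP hF2 hK hτ h1 z
        have h4 : tr τ 0 = v 0 + (v 1) ^ 2 / (2 * k) := by
          rw [← h2, ← h3]; simp [hbb]
        rwa [h4, h3] at this
      · rw [Set.ofPred_forall]
        apply isClosed_iInter
        intro z
        exact (hK D).1.preimage (by fun_prop)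
    intro v hv z
    exact this hv z
  -- `b₁' = 0` on `N`
  have hb0 : ∀ τ ∈ D.Γ, lin τ 2 2 = 1 → bb τ = 0 := by
    intro τ hτ h1
    by_contra h0
    have hx0 : ∀ n : ℕ, (![(q ^ 2) ^ n * bb τ, 0] : Fin 2 → ℝ) ∈ T.topologicalClosure := by
      intro n
      have h2 := T.topologicalClosure.add_mem
        (T.le_topologicalClosure (hTn τ hτ h1 n)) (hy (-(q ^ n * tr τ 1)))
      convert h2 using 1
      ext i
      fin_cases i
      · simp [pow_mul]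
      · simp
    have hx : ∀ t : ℝ, (![t, 0] : Fin 2 → ℝ) ∈ T.topologicalClosure := by
      intro t
      have h2 := mult_closure (T := T) (ρ := fun n => (q ^ 2) ^ n)
        (v := fun _ => (![bb τ, 0] : Fin 2 → ℝ)) (w := ![bb τ, 0]) hq2n
        (fun n => (pow_pos (by positivity) n).ne') tendsto_const_nhds
        (by
          intro n
          have := hx0 n
          convert this using 1
          ext i
          fin_cases i <;> simp)
        (t / bb τ)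
      have h3 : (t / bb τ) • (![bb τ, 0] : Fin 2 → ℝ) = ![t, 0] := by
        ext i
        fin_cases i
        · simp [h0]
        · simp
      rwa [h3] at h2
    obtain ⟨x, hx1, hx2⟩ := hF2 D ![0, 1, 0] 0 (by
      intro h; have := congrFun h 1; simp at this)
    have hx3 : x 1 = 0 := by simpa using hx2
    have h4 := hcl _ (hx (x 0)) (x 2)
    have h5 : (![(![x 0, 0] : Fin 2 → ℝ) 0 + ((![x 0, 0] : Fin 2 → ℝ) 1) ^ 2 / (2 * k),
        (![x 0, 0] : Fin 2 → ℝ) 1, x 2] : E) = x := by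
      ext i
      fin_cases i <;> simp [hx3]
    rw [h5] at h4
    exact h4 hx1
  have hb0' : ∀ τ ∈ D.Γ, lin τ 2 2 = 1 → 2 * tr τ 0 = k * (lin τ 0 1) ^ 2 := by
    intro τ hτ h1
    have h2 := hb0 τ hτ h1
    simp only [hbb] at h2
    rw [hb τ hτ h1] at h2
    field_simp at h2
    linarith
  -- the form of all elements
  have hform : ∀ h ∈ D.Γ, lin h 0 0 = (lin h 1 1) ^ 2 ∧ lin h 1 2 = 0 ∧ lin h 0 2 = 0 ∧
      lin h 0 1 * k = lin h 1 1 * tr h 1 ∧ 2 * k * tr h 0 = (tr h 1) ^ 2 := by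
    intro h hh
    have hT := X.prp.1 h hh
    obtain ⟨h10, h20', h21, hla, hmu, hnu, -⟩ := hT
    have key : ∀ τ ∈ D.Γ, lin τ 2 2 = 1 → ∃ α' : ℝ, α' * lin h 1 1 = lin h 0 0 * lin τ 0 1 ∧
        α' * lin h 1 2 = 0 ∧ k * α' = lin h 1 1 * (k * lin τ 0 1) + lin h 1 2 * tr τ 2 ∧
        2 * (α' * tr h 1) + k * α' ^ 2 = lin h 0 0 * (k * lin τ 0 1 ^ 2) +
          2 * (lin h 0 1 * (k * lin τ 0 1)) + 2 * (lin h 0 2 * tr τ 2) := by
      intro τ hτ h1
      have hm : h * τ * h⁻¹ ∈ D.Γ := mul_mem (mul_mem hh hτ) (inv_mem hh)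
      have h22 := X.conj22 hc hh hτ h1
      have u := X.ut' hc hcm hct hd hτ h1
      have u' := X.ut' hc hcm hct hd hm h22
      have he : (h * τ * h⁻¹) * h = h * τ := by rw [mul_assoc, inv_mul_cancel, mul_one]
      have e0 := hc.2.1 (h * τ * h⁻¹) h
      have e1 := hc.2.2.1 (h * τ * h⁻¹) h
      rw [he] at e0 e1
      have f0 := hc.2.1 h τ
      have f1 := hc.2.2.1 h τ
      have g1 := hb _ hm h22
      have g2 := hb0' _ hm h22
      have g3 := hb _ hτ h1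
      have g4 := hb0' _ hτ h1
      refine ⟨lin (h * τ * h⁻¹) 0 1, ?_, ?_, ?_, ?_⟩
      · have := (e0 0 1).symm.trans (f0 0 1)
        rw [u'.l00, u'.l02, u.l01, u.l11, u.l21] at this
        linarith
      · have := (e0 0 2).symm.trans (f0 0 2)
        rw [u'.l00, u'.l02, u.l02, u.l12, u.l22] at this
        linarith
      · have := (e1 1).symm.trans (f1 1)
        rw [u'.l10, u'.l11, u'.l12, g1, g3, h10] at this
        linarith
      · have := (e1 0).symm.trans (f1 0)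
        rw [u'.l00, u'.l02, g3] at this
        linear_combination 2 * this - g2 + lin h 0 0 * g4
    obtain ⟨α', e1, e2, -, -⟩ := key τ₀ hτ₀ h20
    have hα' : α' ≠ 0 := by
      rintro rfl
      rw [zero_mul] at e1
      exact mul_ne_zero hla.ne' hα e1.symm
    have h12 : lin h 1 2 = 0 := (mul_eq_zero.1 e2).resolve_left hα'
    have key2 : ∀ τ ∈ D.Γ, lin τ 2 2 = 1 → (lin h 1 1) ^ 2 * lin τ 0 1 = lin h 0 0 * lin τ 0 1 ∧
        lin h 1 1 * lin τ 0 1 * tr h 1 = lin h 0 1 * (k * lin τ 0 1) + lin h 0 2 * tr τ 2 := by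
      intro τ hτ h1
      obtain ⟨α', e1, e2, e3, e4⟩ := key τ hτ h1
      have e5 : α' = lin h 1 1 * lin τ 0 1 := by
        rw [h12] at e3
        have : k * (α' - lin h 1 1 * lin τ 0 1) = 0 := by linear_combination e3
        have := (mul_eq_zero.1 this).resolve_left hk
        linarith
      rw [e5] at e1 e4
      constructor
      · linarith
      · linear_combination (1 / 2) * e4 - (1 / 2) * k * lin τ 0 1 * e1
    obtain ⟨σ₁, hσ₁, h3, h4⟩ := X.exc hd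
    have h02 : lin h 0 2 = 0 := by
      obtain ⟨-, e5⟩ := key2 σ₁ hσ₁ h3
      obtain ⟨σ₂, hσ₂, h5, -, h6, -, -, -, -, h7⟩ := X.cj hc hσ₁ h3
      obtain ⟨-, e6⟩ := key2 σ₂ hσ₂ h5
      have h8 : lin σ₂ 0 1 = q * lin σ₁ 0 1 := by
        have : q * (lin σ₂ 0 1 - q * lin σ₁ 0 1) = 0 := by linear_combination h6
        have := (mul_eq_zero.1 this).resolve_left hq.ne'
        linarith
      rw [h7, h8] at e6
      have h9 : (r - q) * (lin h 0 2 * tr σ₁ 2) = 0 := by linear_combination q * e5 - e6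
      have h10 : r - q ≠ 0 := by have := X.hr; linarith
      have h11 := (mul_eq_zero.1 h9).resolve_left h10
      exact (mul_eq_zero.1 h11).resolve_right h4.ne'
    obtain ⟨e5, e6⟩ := key2 τ₀ hτ₀ h20
    have e7 : lin h 0 0 = (lin h 1 1) ^ 2 := (mul_right_cancel₀ hα e5).symm
    have e8 : lin h 0 1 * k = lin h 1 1 * tr h 1 := by
      rw [h02] at e6
      have : lin τ₀ 0 1 * (lin h 0 1 * k - lin h 1 1 * tr h 1) = 0 := by linear_combination -e6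
      have := (mul_eq_zero.1 this).resolve_left hα
      linarith
    refine ⟨e7, h12, h02, e8, ?_⟩
    -- `n = h g h⁻¹ g⁻¹`
    have hnm : h * g * h⁻¹ * g⁻¹ ∈ D.Γ :=
      mul_mem (mul_mem (mul_mem hh X.gm) (inv_mem hh)) (inv_mem X.gm)
    have hn22 : lin (h * g * h⁻¹ * g⁻¹) 2 2 = 1 := by
      rw [tri22 hc X.prp.1 (mul_mem (mul_mem hh X.gm) (inv_mem hh)),
        tri22 hc X.prp.1 (mul_mem hh X.gm), tri22 hc X.prp.1 hh]
      have i1 := tri22_inv hc X.prp.1 hh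
      have i2 := tri22_inv hc X.prp.1 X.gm
      linear_combination lin g 2 2 * lin g⁻¹ 2 2 * i1 + i2
    have u := X.ut' hc hcm hct hd hnm hn22
    have he : (h * g * h⁻¹ * g⁻¹) * (g * h) = h * g := by group
    have f1 := hc.2.2.1 (h * g * h⁻¹ * g⁻¹) (g * h)
    rw [he] at f1
    have f2 := hc.2.2.1 h g
    have f3 := hc.2.2.1 g h
    have g1 := hb _ hnm hn22
    have g2 := hb0' _ hnm hn22
    have a1 := (f1 1).symm.trans (f2 1)
    have a0 := (f1 0).symm.trans (f2 0)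
    rw [f3, f3, f3, u.l10, u.l11, u.l12, X.nf.t, X.nf.t, X.nf.t, X.nf.l10, X.nf.l11, X.nf.l12,
      g1] at a1
    rw [f3, f3, f3, u.l00, u.l02, X.nf.t, X.nf.t, X.nf.t, X.nf.l00, X.nf.l01, X.nf.l02,
      X.nf.l10, X.nf.l11, X.nf.l12] at a0
    set α := lin (h * g * h⁻¹ * g⁻¹) 0 1 with hαd
    have a2 : k * α = (1 - q) * tr h 1 := by linarith
    have a3 : 2 * (1 - q ^ 2) * tr h 0 = 2 * α * q * tr h 1 + k * α ^ 2 := by linarith
    have a4 : (1 - q ^ 2) * (2 * k * tr h 0 - (tr h 1) ^ 2) = 0 := by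
      linear_combination k * a3 + (2 * q * tr h 1 + k * α + (1 - q) * tr h 1) * a2
    have a5 : 1 - q ^ 2 ≠ 0 := by nlinarith
    have := (mul_eq_zero.1 a4).resolve_left a5
    linarith
  -- the convex set
  have hconv : Convex ℝ {v : E | (v 1) ^ 2 ≤ 2 * k * v 0} := by
    intro x hx y hy a b ha hb' hab
    simp only [Set.mem_ofPred_eq, Pi.add_apply, Pi.smul_apply, smul_eq_mul] at hx hy ⊢
    have hb1 : b = 1 - a := by linarith
    have h1 : (a * x 1 + b * y 1) ^ 2 = a * (x 1) ^ 2 + b * (y 1) ^ 2 -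
        a * b * (x 1 - y 1) ^ 2 := by rw [hb1]; ring
    have h2 : 0 ≤ a * b * (x 1 - y 1) ^ 2 := by positivity
    rw [h1]
    nlinarith [mul_le_mul_of_nonneg_left hx ha, mul_le_mul_of_nonneg_left hy hb']
  have hinv : ∀ γ ∈ D.Γ, ∀ x ∈ {v : E | (v 1) ^ 2 ≤ 2 * k * v 0},
      γ x ∈ {v : E | (v 1) ^ 2 ≤ 2 * k * v 0} := by
    intro h hh x hx
    simp only [Set.mem_ofPred_eq] at hx ⊢
    obtain ⟨e1, e2, e3, e4, e5⟩ := hform h hh
    have hT := X.prp.1 h hh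
    rw [hc.1 h x 0, hc.1 h x 1, hT.1, e1, e2, e3]
    have : 2 * k * (lin h 1 1 ^ 2 * x 0 + lin h 0 1 * x 1 + 0 * x 2 + tr h 0) -
        (0 * x 0 + lin h 1 1 * x 1 + 0 * x 2 + tr h 1) ^ 2 =
        lin h 1 1 ^ 2 * (2 * k * x 0 - x 1 ^ 2) := by
      linear_combination 2 * x 1 * e4 + e5
    have h2 : 0 ≤ lin h 1 1 ^ 2 * (2 * k * x 0 - x 1 ^ 2) :=
      mul_nonneg (sq_nonneg _) (by linarith)
    linarith
  have huniv := hF1 D _ hconv ⟨0, by simp⟩ hinv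
  have h1 : (![-k, 0, 0] : E) ∈ {v : E | (v 1) ^ 2 ≤ 2 * k * v 0} := by
    rw [huniv]; trivial
  simp at h1
  have : 0 < k * k := mul_self_pos.2 hk
  nlinarith

theorem b2i (hc : S_coord) (hcm : S_comm) (hct : S_contr) (hd : S_densN) (hP : S_P1)
    (hF1 : S_F1) (hF2 : S_F2) (hK : S_K) (hnd : S_nondisc) (hys : S_ys) (hnorm : S_norm) :
    S_b2i := by
  intro D a₀ hprp ha1 ha0 hg
  exfalso
  -- an element with `χ₂ > 1`
  obtain ⟨g, hgm, hg1⟩ : ∃ g ∈ D.Γ, 1 < lin g 2 2 := by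
    obtain ⟨g, hgm, hne⟩ := hg
    rcases lt_or_gt_of_ne hne with h | h
    · refine ⟨g⁻¹, inv_mem hgm, ?_⟩
      have h1 := tri22_inv hc hprp.1 hgm
      have h2 : 0 < lin g 2 2 := (hprp.1 g hgm).2.2.2.2.2.1
      have h3 : 0 < lin g⁻¹ 2 2 := (hprp.1 g⁻¹ (inv_mem hgm)).2.2.2.2.2.1
      nlinarith
    · exact ⟨g, hgm, h⟩
  obtain ⟨φ, D', hT', -, -, hiff, -, hdiag, h01, h12, h02, ht⟩ := hnorm D g hprp.1 hgm
  set G := φ * g * φ⁻¹ with hG
  have hGm : G ∈ D'.Γ := (hdiag g hgm).1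
  have hGd : ∀ i, lin G i i = lin g i i := (hdiag g hgm).2
  have hprp' : D'.Prp a₀ := by
    refine ⟨hT', ?_⟩
    intro γ hγ
    have h1 := (hiff γ).1 hγ
    obtain ⟨-, h2⟩ := hdiag _ h1
    have h3 : φ * (φ⁻¹ * γ * φ) * φ⁻¹ = γ := by group
    rw [h3] at h2
    rw [h2, h2]
    exact hprp.2 _ h1
  set p := lin g 0 0 with hp
  set q := lin g 1 1 with hq
  set r := lin g 2 2 with hr
  have hpr : p = r ^ a₀ := hprp.2 g hgm
  have hp0 : 0 < p := (hprp.1 g hgm).2.2.2.1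
  have hq0 : 0 < q := (hprp.1 g hgm).2.2.2.2.1
  have hpqr : p * q * r = 1 := (hprp.1 g hgm).2.2.2.2.2.2
  have hp1 : p < 1 := by rw [hpr]; exact Real.rpow_lt_one_of_one_lt_of_neg hg1 ha0
  have hpr1 : 1 < p * r := by
    have : p * r = r ^ (a₀ + 1) := by
      rw [hpr, Real.rpow_add (by linarith), Real.rpow_one]
    rw [this]
    exact Real.one_lt_rpow hg1 (by linarith)
  have hq1 : q < 1 := by
    by_contra hcon
    push Not at hcon
    nlinarith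
  have X : Ctx D' G a₀ p q r (lin G 0 1) := by
    refine ⟨hprp', ha0.ne, hGm, ?_, hp0, hp1, hq0, hq1, hg1, hpqr⟩
    refine ⟨hGd 0, rfl, h02 (by linarith : p < r).ne,
      (hT' G hGm).1, hGd 1, h12 (by linarith : q < r).ne,
      (hT' G hGm).2.1, (hT' G hGm).2.2.1, hGd 2, ?_⟩
    intro i
    apply ht
    fin_cases i
    · exact hp1.ne
    · exact hq1.ne
    · exact hg1.ne'
  by_cases hα : ∀ τ ∈ D'.Γ, lin τ 2 2 = 1 → lin τ 0 1 = 0
  · exact X.caseT hc hcm hct hd hP hF2 hK hnd hα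
  push Not at hα
  obtain ⟨τ₀, hτ₀, h20, hα0⟩ := hα
  by_cases hb : ∀ τ ∈ D'.Γ, lin τ 2 2 = 1 → tr τ 1 = 0
  · exact X.caseS hc hcm hct hd hF2 hys hb hτ₀ h20 hα0
  push Not at hb
  obtain ⟨τ₁, hτ₁, h21, hb1⟩ := hb
  have h5 := (X.ab hc hcm hct hd hτ₀ h20 hτ₁ h21).2
  have h6 : q = p ^ 2 * r := by
    have := (mul_eq_zero.1 h5).resolve_right (mul_ne_zero hα0 hb1)
    linarith
  have h7 : p = q ^ 2 := by
    rw [h6] at hpqr ⊢
    have h8 : p ^ 3 * r ^ 2 = 1 := by linear_combination hpqr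
    linear_combination -p * h8
  have hne : p ≠ q := by
    intro h
    rw [h] at h7
    nlinarith
  have hκ : lin G 0 1 = 0 := h01 hne
  set k : ℝ := tr τ₀ 1 / lin τ₀ 0 1 with hk
  have hbk : ∀ τ ∈ D'.Γ, lin τ 2 2 = 1 → tr τ 1 = k * lin τ 0 1 := by
    intro τ hτ h2
    have := (X.ab hc hcm hct hd hτ₀ h20 hτ h2).1
    rw [hk]
    field_simp
    linarith
  have hk0 : k ≠ 0 := by
    intro h0
    have := hbk τ₁ hτ₁ h21
    rw [h0, zero_mul] at this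
    exact hb1 this
  exact X.caseP hc hcm hct hd hP hF1 hF2 hK h7 hκ hk0 hbk hτ₀ h20 hα0

end Pool.Agent.Helper81.K3.B2i
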