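import Pool.Agent.Helper77.K3.DefsII

set_option autoImplicit false

open Set Filter Topology Matrix
open Pool.Agent.Helper77.K3

namespace Pool.Agent.Helper81.K3.TwoAn

theorem aff_add (γ : Aff3) (p v : E) : γ (p + v) = γ p + γ.linear v := by
  have := γ.map_vadd p v
  simp only [vadd_eq_add] at this
  rw [add_comm p v, this, add_comm]

/-- embedding of the plane -/
def em (u : Fin 2 → ℝ) : E := ![u 0, u 1, 0]

@[simp] theorem em0 (u : Fin 2 → ℝ) : em u 0 = u 0 := rfl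
@[simp] theorem em1 (u : Fin 2 → ℝ) : em u 1 = u 1 := rfl
@[simp] theorem em2 (u : Fin 2 → ℝ) : em u 2 = 0 := rfl

theorem basis2 {u s : Fin 2 → ℝ} (hd : u 0 * s 1 - u 1 * s 0 ≠ 0) (p q : ℝ) :
    ∃ α β : ℝ, α * u 0 + β * s 0 = p ∧ α * u 1 + β * s 1 = q := by
  have h := inv_mul_cancel₀ hd
  refine ⟨(u 0 * s 1 - u 1 * s 0)⁻¹ * (p * s 1 - q * s 0),
    (u 0 * s 1 - u 1 * s 0)⁻¹ * (u 0 * q - u 1 * p), ?_, ?_⟩
  · linear_combination p * h
  · linear_combination q * h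

/-- elements trivial on the height with hyperbolic block -/
structure Hyp (γ : Aff3) (μ : ℝ) (u s : Fin 2 → ℝ) : Prop where
  h20 : lin γ 2 0 = 0
  h21 : lin γ 2 1 = 0
  h22 : lin γ 2 2 = 1
  t2 : tr γ 2 = 0
  u0 : lin γ 0 0 * u 0 + lin γ 0 1 * u 1 = μ * u 0
  u1 : lin γ 1 0 * u 0 + lin γ 1 1 * u 1 = μ * u 1
  s0 : lin γ 0 0 * s 0 + lin γ 0 1 * s 1 = μ⁻¹ * s 0
  s1 : lin γ 1 0 * s 0 + lin γ 1 1 * s 1 = μ⁻¹ * s 1
  hμ : 1 < μ
  dt : u 0 * s 1 - u 1 * s 0 ≠ 0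

theorem Hyp.fix (hc : S_coord) {γ : Aff3} {μ : ℝ} {u s : Fin 2 → ℝ} (h : Hyp γ μ u s) :
    ∃ q0 q1 : E, q0 2 = 0 ∧ q1 2 = 1 ∧ ∀ z : ℝ, γ (q0 + z • q1) = q0 + z • q1 := by
  have hμ := h.hμ
  have hm0 : μ ≠ 0 := by positivity
  have hm1 : μ - 1 ≠ 0 := by linarith
  have hm2 : 1 - μ⁻¹ ≠ 0 := by
    have : μ⁻¹ < 1 := inv_lt_one_of_one_lt₀ hμ
    linarith
  have hd := h.dt
  obtain ⟨α0, β0, e1, e2⟩ := basis2 hd (tr γ 0) (tr γ 1)
  obtain ⟨α1, β1, e3, e4⟩ := basis2 hd (lin γ 0 2) (lin γ 1 2)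
  obtain ⟨a0, ha0⟩ : ∃ a : ℝ, α0 = -(μ - 1) * a := ⟨-α0 / (μ - 1), by field_simp⟩
  obtain ⟨a1, ha1⟩ : ∃ a : ℝ, α1 = -(μ - 1) * a := ⟨-α1 / (μ - 1), by field_simp⟩
  obtain ⟨b0, hb0⟩ : ∃ b : ℝ, β0 = (1 - μ⁻¹) * b := ⟨β0 / (1 - μ⁻¹), by rw [mul_div_cancel₀ _ hm2]⟩
  obtain ⟨b1, hb1⟩ : ∃ b : ℝ, β1 = (1 - μ⁻¹) * b := ⟨β1 / (1 - μ⁻¹), by rw [mul_div_cancel₀ _ hm2]⟩
  refine ⟨em (a0 • u + b0 • s), ![(a1 • u + b1 • s) 0, (a1 • u + b1 • s) 1, 1], rfl, rfl, ?_⟩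
  intro z
  ext i
  rw [hc.1]
  fin_cases i
  · simp
    rw [← e1, ← e3, ha0, ha1, hb0, hb1]
    linear_combination (a0 + z * a1) * h.u0 + (b0 + z * b1) * h.s0
  · simp
    rw [← e2, ← e4, ha0, ha1, hb0, hb1]
    linear_combination (a0 + z * a1) * h.u1 + (b0 + z * b1) * h.s1
  · simp [h.h20, h.h21, h.h22, h.t2]

theorem Hyp.lu (hc : S_coord) {γ : Aff3} {μ : ℝ} {u s : Fin 2 → ℝ} (h : Hyp γ μ u s) :
    γ.linear (em u) = μ • em u := by
  rw [hc.2.2.2.2.2.2.2.2.1]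
  ext i
  have h1 := h.u0
  have h2 := h.u1
  have h3 := h.h20
  have h4 := h.h21
  fin_cases i <;> simp [mat, Matrix.mulVec, dotProduct, Fin.sum_univ_three, h3, h4] <;>
    linarith

theorem Hyp.ls (hc : S_coord) {γ : Aff3} {μ : ℝ} {u s : Fin 2 → ℝ} (h : Hyp γ μ u s) :
    γ.linear (em s) = μ⁻¹ • em s := by
  rw [hc.2.2.2.2.2.2.2.2.1]
  ext i
  have h1 := h.s0
  have h2 := h.s1
  have h3 := h.h20
  have h4 := h.h21
  fin_cases i <;> simp [mat, Matrix.mulVec, dotProduct, Fin.sum_univ_three, h3, h4] <;>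
    linarith

theorem Hyp.act (hc : S_coord) {γ : Aff3} {μ : ℝ} {u s : Fin 2 → ℝ} (h : Hyp γ μ u s)
    {q : E} (hq : γ q = q) (n : ℕ) : ∀ a b : ℝ,
    (γ ^ n) (q + a • em u + b • em s) = q + (μ ^ n * a) • em u + (μ⁻¹ ^ n * b) • em s := by
  induction n with
  | zero => intro a b; simp
  | succ n ih =>
    intro a b
    rw [pow_succ]
    have h1 : γ (q + a • em u + b • em s) = q + (μ * a) • em u + (μ⁻¹ * b) • em s := by
      rw [aff_add, aff_add, hq, map_smul, map_smul, h.lu hc, h.ls hc, smul_smul, smul_smul,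
        mul_comm a, mul_comm b]
    rw [AffineEquiv.coe_mul, Function.comp_apply, h1, ih, pow_succ, pow_succ, mul_assoc (μ ^ n),
      mul_assoc (μ⁻¹ ^ n)]

theorem Hyp.inj (hc : S_coord) {γ : Aff3} {μ : ℝ} {u s : Fin 2 → ℝ} (h : Hyp γ μ u s) :
    Tendsto (fun n : ℕ => γ ^ n) atTop cofinite := by
  rw [← Nat.cofinite_eq_atTop]
  apply Function.Injective.tendsto_cofinite
  intro m n hmn
  simp only at hmn
  obtain ⟨q0, q1, -, -, hq⟩ := h.fix hc
  have hq0 : γ q0 = q0 := by simpa using hq 0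
  have h1 := h.act hc hq0 m 1 0
  have h2 := h.act hc hq0 n 1 0
  rw [hmn, h2] at h1
  simp only [mul_one, mul_zero, zero_smul, add_zero, add_right_inj] at h1
  have hu : u 0 ≠ 0 ∨ u 1 ≠ 0 := by
    by_contra hcon
    push Not at hcon
    exact h.dt (by rw [hcon.1, hcon.2]; ring)
  have h3 : μ ^ n = μ ^ m := by
    rcases hu with hu | hu
    · have := congrFun h1 0
      simp only [Pi.smul_apply, em0, smul_eq_mul] at this
      exact mul_right_cancel₀ hu this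
    · have := congrFun h1 1
      simp only [Pi.smul_apply, em1, smul_eq_mul] at this
      exact mul_right_cancel₀ hu this
  exact (pow_right_injective₀ (by linarith [h.hμ]) (by linarith [h.hμ]) h3).symm

theorem tinv {μ : ℝ} (h : 1 < μ) : Tendsto (fun n : ℕ => μ⁻¹ ^ n) atTop (𝓝 0) :=
  tendsto_pow_atTop_nhds_zero_of_lt_one (by positivity) (inv_lt_one_of_one_lt₀ h)

/-- in each leaf one of the two lines lies in `K` -/
theorem Hyp.lines (hc : S_coord) (hP : S_P1) (D : KData) {γ : Aff3} (hγ : γ ∈ D.Γ) {μ : ℝ}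
    {u s : Fin 2 → ℝ} (h : Hyp γ μ u s) {q : E} (hq : γ q = q) :
    (∀ a : ℝ, q + a • em u ∈ D.K) ∨ (∀ b : ℝ, q + b • em s ∈ D.K) := by
  by_contra hcon
  push Not at hcon
  obtain ⟨⟨a, ha⟩, ⟨b, hb⟩⟩ := hcon
  have hm0 : μ ≠ 0 := by have := h.hμ; positivity
  have h1 : Tendsto (fun n : ℕ => q + (μ⁻¹ ^ n * a) • em u + b • em s) atTop
      (𝓝 (q + b • em s)) := by
    have h2 : Tendsto (fun n : ℕ => (μ⁻¹ ^ n * a) • em u) atTop (𝓝 ((0 * a) • em u)) :=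
      ((tinv h.hμ).mul_const a).smul_const _
    rw [zero_mul, zero_smul] at h2
    simpa using (tendsto_const_nhds (x := q)).add h2 |>.add_const (b • em s)
  have h3 : Tendsto (fun n : ℕ => (γ ^ n) (q + (μ⁻¹ ^ n * a) • em u + b • em s)) atTop
      (𝓝 (q + a • em u)) := by
    have h4 : ∀ n : ℕ, (γ ^ n) (q + (μ⁻¹ ^ n * a) • em u + b • em s) =
        q + a • em u + (μ⁻¹ ^ n * b) • em s := by
      intro n
      rw [h.act hc hq]
      congr 3
      rw [← mul_assoc, ← mul_pow, mul_inv_cancel₀ hm0, one_pow, one_mul]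
    simp only [h4]
    have h2 : Tendsto (fun n : ℕ => (μ⁻¹ ^ n * b) • em s) atTop (𝓝 ((0 * b) • em s)) :=
      ((tinv h.hμ).mul_const b).smul_const _
    rw [zero_mul, zero_smul] at h2
    simpa using (tendsto_const_nhds (x := q + a • em u)).add h2
  rcases hP D (fun n => γ ^ n) _ _ _ (fun n => pow_mem hγ n) (h.inj hc) h1 h3 with h5 | h5
  · exact hb h5
  · exact ha h5

/-- transport of a line in `K` -/
theorem Hyp.transport (hc : S_coord) (hK : S_K) (D : KData) {γ : Aff3} (hγ : γ ∈ D.Γ) {μ : ℝ}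
    {u s : Fin 2 → ℝ} (h : Hyp γ μ u s) {q : E} (hq : γ q = q) {p : E} {v : Fin 2 → ℝ}
    (hv : v 0 * s 1 - v 1 * s 0 ≠ 0) (hp : p 2 = q 2) (hl : ∀ t : ℝ, p + t • em v ∈ D.K) (a : ℝ) :
    q + a • em u ∈ D.K := by
  have hm0 : μ ≠ 0 := by have := h.hμ; positivity
  obtain ⟨α, β, e1, e2⟩ := basis2 h.dt (v 0) (v 1)
  obtain ⟨c, d, e3, e4⟩ := basis2 h.dt (p 0 - q 0) (p 1 - q 1)
  have hα : α ≠ 0 := by
    rintro rfl
    apply hv
    rw [← e1, ← e2]; ring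
  set t : ℕ → ℝ := fun n => (μ⁻¹ ^ n * a - c) / α with ht
  have hpt : ∀ n, p + t n • em v = q + (μ⁻¹ ^ n * a) • em u + (d + t n * β) • em s := by
    intro n
    have h1 : t n * α = μ⁻¹ ^ n * a - c := by
      simp only [ht]; field_simp
    ext i
    fin_cases i
    · simp
      linear_combination -(t n) * e1 + u 0 * h1 - e3
    · simp
      linear_combination -(t n) * e2 + u 1 * h1 - e4
    · simp [hp]
  have h3 : Tendsto (fun n : ℕ => (γ ^ n) (p + t n • em v)) atTop (𝓝 (q + a • em u)) := by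
    have h4 : ∀ n : ℕ, (γ ^ n) (p + t n • em v) =
        q + a • em u + (μ⁻¹ ^ n * (d + t n * β)) • em s := by
      intro n
      rw [hpt, h.act hc hq]
      congr 3
      rw [← mul_assoc, ← mul_pow, mul_inv_cancel₀ hm0, one_pow, one_mul]
    simp only [h4]
    have ht0 : Tendsto t atTop (𝓝 ((0 * a - c) / α)) :=
      (((tinv h.hμ).mul_const a).sub_const c).div_const α
    have h2 : Tendsto (fun n : ℕ => (μ⁻¹ ^ n * (d + t n * β)) • em s) atTop
        (𝓝 ((0 * (d + (0 * a - c) / α * β)) • em s)) :=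
      ((tinv h.hμ).mul ((ht0.mul_const β).const_add d)).smul_const _
    rw [zero_mul, zero_smul] at h2
    simpa using (tendsto_const_nhds (x := q + a • em u)).add h2
  refine (hK D).1.mem_of_tendsto h3 (Eventually.of_forall fun n => ?_)
  exact ((hK D).2 (γ ^ n) (pow_mem hγ n) _).2 (hl _)

/-- the block representation -/
theorem lin22_mul (hc : S_coord) (D : KData) (hD : D.PlaneInv) (γ δ : D.Γ) :
    lin (γ * δ : D.Γ).1 2 2 = lin γ.1 2 2 * lin δ.1 2 2 := by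
  rw [Subgroup.coe_mul, hc.2.1, (hD γ.1 γ.2).1, (hD γ.1 γ.2).2]
  ring

theorem tr2_mul (hc : S_coord) (D : KData) (hD : D.PlaneInv) (γ δ : D.Γ) :
    tr (γ * δ : D.Γ).1 2 = lin γ.1 2 2 * tr δ.1 2 + tr γ.1 2 := by
  rw [Subgroup.coe_mul, hc.2.2.1, (hD γ.1 γ.2).1, (hD γ.1 γ.2).2]
  ring

theorem lin_one (i j : Fin 3) : lin 1 i j = if i = j then 1 else 0 := by
  unfold lin e
  have : (1 : Aff3).linear (Pi.single j 1) = (Pi.single j 1 : E) := rfl
  rw [this, Pi.single_apply]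

theorem tr_one (i : Fin 3) : tr 1 i = 0 := rfl

/-- the character on the height -/
def chi (hc : S_coord) (D : KData) (hD : D.PlaneInv) : D.Γ →* ℝ where
  toFun γ := lin γ.1 2 2
  map_one' := by rw [Subgroup.coe_one, lin_one]; rfl
  map_mul' γ δ := lin22_mul hc D hD γ δ

/-- trivial on the height -/
def N2 (hc : S_coord) (D : KData) (hD : D.PlaneInv) : Subgroup D.Γ where
  carrier := {γ | lin γ.1 2 2 = 1 ∧ tr γ.1 2 = 0}
  one_mem' := ⟨by rw [Subgroup.coe_one, lin_one]; rfl, by rw [Subgroup.coe_one, tr_one]⟩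
  mul_mem' := by
    rintro a b ⟨h1, h2⟩ ⟨h3, h4⟩
    exact ⟨by rw [lin22_mul hc D hD, h1, h3, one_mul],
      by rw [tr2_mul hc D hD, h1, h2, h4]; ring⟩
  inv_mem' := by
    rintro a ⟨h1, h2⟩
    have h3 := lin22_mul hc D hD a a⁻¹
    have h4 := tr2_mul hc D hD a a⁻¹
    rw [mul_inv_cancel, Subgroup.coe_one, lin_one, h1] at h3
    rw [mul_inv_cancel, Subgroup.coe_one, tr_one, h1, h2] at h4
    refine ⟨by simpa using h3.symm, by linarith⟩

theorem derived2 (hc : S_coord) (D : KData) (hD : D.PlaneInv) :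
    derivedSeries D.Γ 2 ≤ N2 hc D hD := by
  have h1 : derivedSeries D.Γ 1 ≤ (chi hc D hD).ker := by
    rw [derivedSeries_succ, Subgroup.commutator_le]
    intro a _ b _
    rw [MonoidHom.mem_ker, commutatorElement_def, map_mul, map_mul, map_mul]
    have h2 : chi hc D hD a * chi hc D hD a⁻¹ = 1 := by
      rw [← map_mul, mul_inv_cancel, map_one]
    have h3 : chi hc D hD b * chi hc D hD b⁻¹ = 1 := by
      rw [← map_mul, mul_inv_cancel, map_one]
    linear_combination chi hc D hD b * chi hc D hD b⁻¹ * h2 + h3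
  rw [derivedSeries_succ, Subgroup.commutator_le]
  intro a ha b hb
  have key : ∀ x : D.Γ, x ∈ derivedSeries D.Γ 1 → lin x.1 2 2 = 1 := fun x hx =>
    MonoidHom.mem_ker.1 (h1 hx)
  have h2 := key _ ha
  have h3 := key _ hb
  have h4 := key _ (inv_mem ha)
  have h5 := key _ (inv_mem hb)
  have h6 : lin (a * b : D.Γ).1 2 2 = 1 := key _ (mul_mem ha hb)
  have h7 : lin (a * b * a⁻¹ : D.Γ).1 2 2 = 1 := key _ (mul_mem (mul_mem ha hb) (inv_mem ha))
  have ta := tr2_mul hc D hD a a⁻¹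
  have tb := tr2_mul hc D hD b b⁻¹
  rw [mul_inv_cancel, Subgroup.coe_one, tr_one, h2] at ta
  rw [mul_inv_cancel, Subgroup.coe_one, tr_one, h3] at tb
  rw [commutatorElement_def]
  refine ⟨?_, ?_⟩
  · rw [lin22_mul hc D hD, h7, h5, one_mul]
  · rw [tr2_mul hc D hD, tr2_mul hc D hD, tr2_mul hc D hD, h7, h6, h2]
    linarith

/-- a hyperbolic block gives a `Hyp` element -/
theorem mkHyp (hc : S_coord) (D : KData) (hD : D.PlaneInv) (ρ : D.Γ →* M2)
    (hρ : ∀ γ : D.Γ, ρ γ = !![lin γ.1 0 0, lin γ.1 0 1; lin γ.1 1 0, lin γ.1 1 1])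
    (f : D.Γ) (hf : f ∈ derivedSeries D.Γ 2) (u s : Fin 2 → ℝ) (μ : ℝ) (hμ : 1 < μ) (hu : u ≠ 0)
    (hs : s ≠ 0) (h1 : ρ f *ᵥ u = μ • u) (h2 : ρ f *ᵥ s = μ⁻¹ • s) : Hyp f.1 μ u s := by
  have h3 := derived2 hc D hD hf
  rw [hρ] at h1 h2
  have a0 := congrFun h1 0
  have a1 := congrFun h1 1
  have b0 := congrFun h2 0
  have b1 := congrFun h2 1
  simp [Matrix.mulVec, dotProduct, Fin.sum_univ_two] at a0 a1 b0 b1
  refine ⟨(hD f.1 f.2).1, (hD f.1 f.2).2, h3.1, h3.2, a0, a1, b0, b1, hμ, ?_⟩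
  intro hd
  have hi : μ⁻¹ < 1 := inv_lt_one_of_one_lt₀ hμ
  have hne : μ - μ⁻¹ ≠ 0 := by linarith
  have e1 : u 0 * s 1 = 0 := by
    have : (μ - μ⁻¹) * (u 0 * s 1) = 0 := by
      linear_combination u 1 * b0 - s 1 * a0 + (lin f.1 0 0 - μ⁻¹) * hd
    exact (mul_eq_zero.1 this).resolve_left hne
  have e2 : u 1 * s 0 = 0 := by linarith
  have e3 : u 0 * s 0 = 0 := by
    have : (μ - μ⁻¹) * (u 0 * s 0) = 0 := by
      linear_combination u 0 * b0 - s 0 * a0 - lin f.1 0 1 * hd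
    exact (mul_eq_zero.1 this).resolve_left hne
  have e4 : u 1 * s 1 = 0 := by
    have : (μ - μ⁻¹) * (u 1 * s 1) = 0 := by
      linear_combination u 1 * b1 - s 1 * a1 + lin f.1 1 0 * hd
    exact (mul_eq_zero.1 this).resolve_left hne
  rcases eq_or_ne (s 0) 0 with h4 | h4
  · rcases eq_or_ne (s 1) 0 with h5 | h5
    · apply hs
      ext i; fin_cases i
      · exact h4
      · exact h5
    · apply hu
      ext i; fin_cases i
      · exact (mul_eq_zero.1 e1).resolve_right h5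
      · exact (mul_eq_zero.1 e4).resolve_right h5
  · apply hu
    ext i; fin_cases i
    · exact (mul_eq_zero.1 e3).resolve_right h4
    · exact (mul_eq_zero.1 e2).resolve_right h4

/-- the determinant functional -/
def detL (u : Fin 2 → ℝ) : (Fin 2 → ℝ) →ₗ[ℝ] ℝ where
  toFun w := u 0 * w 1 - u 1 * w 0
  map_add' a b := by simp; ring
  map_smul' c a := by simp; ring

theorem detL_ne {u : Fin 2 → ℝ} (hu : u ≠ 0) : detL u ≠ 0 := by
  intro h
  apply hu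
  have h1 := LinearMap.congr_fun h ![0, 1]
  have h2 := LinearMap.congr_fun h ![1, 0]
  simp [detL] at h1 h2
  ext i; fin_cases i
  · exact h1
  · exact h2

theorem twoAn (hh : S_hyp2) (hg : S_gen) (hP : S_P1) (hF2 : S_F2) (hK : S_K) (hc : S_coord) :
    S_2An := by
  intro D hD ρ hρ hirr hbdd
  obtain ⟨f, hf, u, s, μ, hμ, hu, hs, hfu, hfs⟩ := hh D.Γ ρ hirr hbdd
  have H := mkHyp hc D hD ρ hρ f hf u s μ hμ hu hs hfu hfs
  obtain ⟨h, hh1, -⟩ := hg D.Γ (Fin 2 → ℝ) (linRep2 ρ) hirr (Fin 2) Empty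
    ![detL u, detL s] ![s, s] Empty.elim Empty.elim
    (by intro i; fin_cases i
        · exact detL_ne hu
        · exact detL_ne hs)
    (by intro i; fin_cases i <;> exact hs) (fun i => i.elim) (fun i => i.elim)
  have k0 := hh1 0
  have k1 := hh1 1
  simp only [Matrix.cons_val_zero, Matrix.cons_val_one] at k0 k1
  -- the conjugate element
  have hf' : h * f * h⁻¹ ∈ derivedSeries D.Γ 2 :=
    (derivedSeries_normal D.Γ 2).conj_mem f hf h
  set u' : Fin 2 → ℝ := ρ h *ᵥ u with hu'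
  set s' : Fin 2 → ℝ := ρ h *ᵥ s with hs'
  have hinv : ρ h⁻¹ * ρ h = 1 := by rw [← map_mul, inv_mul_cancel, map_one]
  have hu'0 : u' ≠ 0 := by
    intro h0
    apply hu
    have : ρ h⁻¹ *ᵥ u' = u := by rw [hu', Matrix.mulVec_mulVec, hinv, Matrix.one_mulVec]
    rw [← this, h0, Matrix.mulVec_zero]
  have hs'0 : s' ≠ 0 := by
    intro h0
    apply hs
    have : ρ h⁻¹ *ᵥ s' = s := by rw [hs', Matrix.mulVec_mulVec, hinv, Matrix.one_mulVec]
    rw [← this, h0, Matrix.mulVec_zero]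
  have hfu' : ρ (h * f * h⁻¹) *ᵥ u' = μ • u' := by
    rw [hu', Matrix.mulVec_mulVec, map_mul, map_mul, mul_assoc, hinv, mul_one,
      ← Matrix.mulVec_mulVec, hfu, Matrix.mulVec_smul]
  have hfs' : ρ (h * f * h⁻¹) *ᵥ s' = μ⁻¹ • s' := by
    rw [hs', Matrix.mulVec_mulVec, map_mul, map_mul, mul_assoc, hinv, mul_one,
      ← Matrix.mulVec_mulVec, hfs, Matrix.mulVec_smul]
  have H' := mkHyp hc D hD ρ hρ _ hf' u' s' μ hμ hu'0 hs'0 hfu' hfs'
  obtain ⟨p0, p1, hp0, hp1, hp⟩ := H.fix hc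
  obtain ⟨q0, q1, hq0, hq1, hq⟩ := H'.fix hc
  have kk0 : u 0 * s' 1 - u 1 * s' 0 ≠ 0 := k0
  have kk1 : s 0 * s' 1 - s 1 * s' 0 ≠ 0 := k1
  have key : ∀ z a : ℝ, q0 + z • q1 + a • em u' ∈ D.K := by
    intro z a
    have hz : (p0 + z • p1) 2 = (q0 + z • q1) 2 := by simp [hp0, hp1, hq0, hq1]
    rcases H.lines hc hP D f.2 (hp z) with h1 | h1
    · exact H'.transport hc hK D (h * f * h⁻¹).2 (hq z) kk0 hz h1 a
    · exact H'.transport hc hK D (h * f * h⁻¹).2 (hq z) kk1 hz h1 a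
  -- the plane
  set n : E := ![u' 1, -u' 0, -(u' 1 * q1 0 - u' 0 * q1 1)] with hn
  have hn0 : n ≠ 0 := by
    intro h0
    apply hu'0
    have h1 := congrFun h0 0
    have h2 := congrFun h0 1
    simp [hn] at h1 h2
    ext i; fin_cases i
    · exact h2
    · exact h1
  obtain ⟨x, hx, hx2⟩ := hF2 D n (u' 1 * q0 0 - u' 0 * q0 1) hn0
  apply (show x ∉ D.K from fun h => h hx)
  have hx3 : u' 1 * (x 0 - q0 0 - x 2 * q1 0) = u' 0 * (x 1 - q0 1 - x 2 * q1 1) := by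
    simp [hn] at hx2
    linear_combination hx2
  obtain ⟨a, ha0, ha1⟩ : ∃ a : ℝ, x 0 - q0 0 - x 2 * q1 0 = a * u' 0 ∧
      x 1 - q0 1 - x 2 * q1 1 = a * u' 1 := by
    rcases eq_or_ne (u' 0) 0 with h0 | h0
    · have h1 : u' 1 ≠ 0 := by
        intro h1
        apply hu'0
        ext i; fin_cases i
        · exact h0
        · exact h1
      refine ⟨(x 1 - q0 1 - x 2 * q1 1) / u' 1, ?_, by field_simp⟩
      rw [h0, zero_mul] at hx3
      rw [h0, mul_zero]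
      exact (mul_eq_zero.1 hx3).resolve_left h1
    · refine ⟨(x 0 - q0 0 - x 2 * q1 0) / u' 0, by field_simp, ?_⟩
      rw [div_mul_eq_mul_div, eq_div_iff h0]
      linear_combination -hx3
  have : x = q0 + (x 2) • q1 + a • em u' := by
    ext i; fin_cases i
    · simp; linarith
    · simp; linarith
    · simp [hq0, hq1]
  rw [this]
  exact key _ _

end Pool.Agent.Helper81.K3.TwoAn
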